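import Mathlib

/-!
# MP_1f68be_co: the arctangent inequality behind non-inscribable Kleetopes
-/

namespace Pool.Agent.Work.MP_1f68be_co

open Real

/-- The sign of the cosine of a sum of three arctangents. -/
theorem cos_arctan_three (x y z : ℝ) :
    Real.cos (arctan x + arctan y + arctan z) =
      (1 - (x * y + y * z + z * x)) *
        (Real.cos (arctan x) * Real.cos (arctan y) * Real.cos (arctan z)) := by
  have hx : Real.sin (arctan x) = x * Real.cos (arctan x) := by
    have := Real.tan_arctan x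
    rw [Real.tan_eq_sin_div_cos, div_eq_iff (Real.cos_arctan_pos x).ne'] at this
    exact this
  have hy : Real.sin (arctan y) = y * Real.cos (arctan y) := by
    have := Real.tan_arctan y
    rw [Real.tan_eq_sin_div_cos, div_eq_iff (Real.cos_arctan_pos y).ne'] at this
    exact this
  have hz : Real.sin (arctan z) = z * Real.cos (arctan z) := by
    have := Real.tan_arctan z
    rw [Real.tan_eq_sin_div_cos, div_eq_iff (Real.cos_arctan_pos z).ne'] at this
    exact this
  rw [Real.cos_add, Real.sin_add, Real.cos_add, hx, hy, hz]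
  ring

theorem arctan_add_pos {x y : ℝ} (h : 0 < x + y) : 0 < arctan x + arctan y := by
  have h1 : arctan (-y) < arctan x := Real.arctan_strictMono (by linarith)
  rw [Real.arctan_neg] at h1
  linarith

theorem arctan_three_gt {x y z : ℝ} (h1 : 0 < x + z)
    (h : 1 < x * y + y * z + z * x) : π / 2 < arctan x + arctan y + arctan z := by
  have hx := arctan_add_pos h1
  have hy1 := Real.neg_pi_div_two_lt_arctan y
  by_contra hcon
  push Not at hcon
  have hcos : 0 ≤ Real.cos (arctan x + arctan y + arctan z) :=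
    Real.cos_nonneg_of_neg_pi_div_two_le_of_le (by linarith) hcon
  rw [cos_arctan_three] at hcos
  have hpos : 0 < Real.cos (arctan x) * Real.cos (arctan y) * Real.cos (arctan z) :=
    mul_pos (mul_pos (Real.cos_arctan_pos x) (Real.cos_arctan_pos y)) (Real.cos_arctan_pos z)
  nlinarith

theorem arctan_three_eq {x y z : ℝ} (h1 : 0 < x + y) (h2 : 0 < y + z) (h3 : 0 < z + x)
    (h : x * y + y * z + z * x = 1) : arctan x + arctan y + arctan z = π / 2 := by
  have g1 := arctan_add_pos h1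
  have g2 := arctan_add_pos h2
  have g3 := arctan_add_pos h3
  have b1 := Real.arctan_lt_pi_div_two x
  have b2 := Real.arctan_lt_pi_div_two y
  have b3 := Real.arctan_lt_pi_div_two z
  have hcos : Real.cos (arctan x + arctan y + arctan z) = 0 := by
    rw [cos_arctan_three, h, sub_self, zero_mul]
  rw [Real.cos_eq_zero_iff] at hcos
  obtain ⟨k, hk⟩ := hcos
  have hpi := Real.pi_pos
  have hk0 : k = 0 := by
    have h4 : (0 : ℝ) < (2 * k + 1) * π / 2 := by rw [← hk]; linarith
    have h5 : (2 * k + 1) * π / 2 < 3 * (π / 2) := by rw [← hk]; linarith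
    have h6 : (0 : ℝ) < 2 * k + 1 := by
      by_contra hcon
      push Not at hcon
      have : (2 * (k : ℝ) + 1) * π / 2 ≤ 0 := by nlinarith
      linarith
    have h7 : (2 * (k : ℝ) + 1) < 3 := by
      by_contra hcon
      push Not at hcon
      have : 3 * (π / 2) ≤ (2 * (k : ℝ) + 1) * π / 2 := by nlinarith
      linarith
    have h8 : (0 : ℤ) < 2 * k + 1 := by exact_mod_cast h6
    have h9 : (2 * k + 1 : ℤ) < 3 := by exact_mod_cast h7
    omega
  rw [hk, hk0]
  simp

/-- For one vertex: the three cotangents add up. -/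
theorem vertex_sum {a b c t : ℝ} (ha : 0 < a) (hb : 0 < b) (hc : 0 < c)
    (h1 : a < b + c) (h2 : b < a + c) (h3 : c < a + b) (ht : 0 < t)
    (ht2 : t ^ 2 = (a + b + c) * (-a + b + c) * (a - b + c) * (a + b - c))
    {x y z : ℝ} (hx : 0 < x) (hy : 0 < y) (hz : 0 < z)
    (hq : c * (x * y) + b * (x * z) + a * (y * z) = a * x + b * y + c * z) :
    arctan ((2 * b * c * x - (b ^ 2 + c ^ 2 - a ^ 2)) / t) +
      arctan ((2 * a * c * y - (a ^ 2 + c ^ 2 - b ^ 2)) / t) +
      arctan ((2 * a * b * z - (a ^ 2 + b ^ 2 - c ^ 2)) / t) = π / 2 := by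
  have aux : ∀ {p q r u v : ℝ}, 0 < p → 0 < q → 0 < r → 0 < u → 0 < v → r < p + q →
      (∃ w, 0 < w ∧ w * (q * u + p * v - r) = p * u + q * v - r * (u * v)) →
      0 < q * u + p * v - r := by
    rintro p q r u v hp hq hr hu hv hr2 ⟨w, hw, hwe⟩
    by_contra hcon
    push Not at hcon
    have e1 : p * u + q * v ≤ r * (u * v) := by nlinarith
    have e2 : q * u + p * v ≤ r := by linarith
    -- multiply e2 by (u v) and combine
    have huv : 0 < u * v := mul_pos hu hv
    have e3 : (q * u + p * v) * (u * v) ≤ r * (u * v) := mul_le_mul_of_nonneg_right e2 huv.le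
    have e4 : (q * u + p * v) * (u * v) + (p * u + q * v) ≤ 2 * (r * (u * v)) := by linarith
    have e5 : (q * u + p * v) * (u * v) + (p * u + q * v) ≥ 2 * (p + q) * (u * v) := by
      nlinarith [mul_nonneg (mul_nonneg hq.le hv.le) (sq_nonneg (u - 1)),
        mul_nonneg (mul_nonneg hp.le hu.le) (sq_nonneg (v - 1))]
    nlinarith
  have s12 : 0 < b * x + a * y - c := by
    refine aux ha hb hc hx hy h3 ⟨z, hz, ?_⟩
    linarith
  have s13 : 0 < c * x + a * z - b := by
    refine aux ha hc hb hx hz (by linarith) ⟨y, hy, ?_⟩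
    linarith
  have s23 : 0 < c * y + b * z - a := by
    refine aux hb hc ha hy hz h1 ⟨x, hx, ?_⟩
    linarith
  refine arctan_three_eq ?_ ?_ ?_ ?_
  · rw [← add_div]
    refine div_pos ?_ ht
    have : 2 * b * c * x - (b ^ 2 + c ^ 2 - a ^ 2) + (2 * a * c * y - (a ^ 2 + c ^ 2 - b ^ 2)) =
      2 * c * (b * x + a * y - c) := by ring
    rw [this]; positivity
  · rw [← add_div]
    refine div_pos ?_ ht
    have : 2 * a * c * y - (a ^ 2 + c ^ 2 - b ^ 2) + (2 * a * b * z - (a ^ 2 + b ^ 2 - c ^ 2)) =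
      2 * a * (c * y + b * z - a) := by ring
    rw [this]; positivity
  · rw [← add_div]
    refine div_pos ?_ ht
    have : 2 * a * b * z - (a ^ 2 + b ^ 2 - c ^ 2) + (2 * b * c * x - (b ^ 2 + c ^ 2 - a ^ 2)) =
      2 * b * (c * x + a * z - b) := by ring
    rw [this]; positivity
  · field_simp
    rw [ht2]
    have key := congrArg (fun s => 4 * a * b * c * s) hq
    linear_combination key

theorem pair_gt {b c t A μ μ' : ℝ} (hb : 0 < b) (hc : 0 < c) (ht : 0 < t)
    (hA : A ^ 2 + t ^ 2 = 4 * b ^ 2 * c ^ 2) (hμ : 0 < μ) (h : 1 < μ * μ') :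
    π / 2 < arctan ((2 * b * c * μ - A) / t) + arctan ((2 * b * c * μ' - A) / t) +
      arctan (A / t) := by
  refine arctan_three_gt ?_ ?_
  · rw [← add_div]
    refine div_pos ?_ ht
    have : 2 * b * c * μ - A + A = 2 * b * c * μ := by ring
    rw [this]; positivity
  · have e : (2 * b * c * μ - A) / t * ((2 * b * c * μ' - A) / t) +
        (2 * b * c * μ' - A) / t * (A / t) + A / t * ((2 * b * c * μ - A) / t) =
        (4 * b ^ 2 * c ^ 2 * (μ * μ') - A ^ 2) / t ^ 2 := by
      field_simp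
      ring
    rw [e, lt_div_iff₀ (by positivity)]
    have : 0 < 4 * b ^ 2 * c ^ 2 := by positivity
    nlinarith

theorem klee_arctan (a b c : ℝ) (ha : 0 < a) (hb : 0 < b) (hc : 0 < c)
    (h1 : a < b + c) (h2 : b < a + c) (h3 : c < a + b)
    (μ : Fin 4 → Fin 3 → ℝ) (hμ : ∀ i j, 0 < μ i j)
    (hq : ∀ i, c * (μ i 0 * μ i 1) + b * (μ i 0 * μ i 2) + a * (μ i 1 * μ i 2)
      = a * μ i 0 + b * μ i 1 + c * μ i 2)
    (p1 : 1 < μ 0 0 * μ 1 0) (p2 : 1 < μ 2 0 * μ 3 0)
    (p3 : 1 < μ 0 1 * μ 2 1) (p4 : 1 < μ 1 1 * μ 3 1)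
    (p5 : 1 < μ 0 2 * μ 3 2) (p6 : 1 < μ 1 2 * μ 2 2) : False := by
  set D : ℝ := (a + b + c) * (-a + b + c) * (a - b + c) * (a + b - c) with hD
  have hDpos : 0 < D := by
    have e1 : 0 < a + b + c := by linarith
    have e2 : 0 < -a + b + c := by linarith
    have e3 : 0 < a - b + c := by linarith
    have e4 : 0 < a + b - c := by linarith
    rw [hD]
    exact mul_pos (mul_pos (mul_pos e1 e2) e3) e4
  set t : ℝ := Real.sqrt D with ht
  have htpos : 0 < t := Real.sqrt_pos.2 hDpos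
  have ht2 : t ^ 2 = D := Real.sq_sqrt hDpos.le
  have ht2' : t ^ 2 = (a + b + c) * (-a + b + c) * (a - b + c) * (a + b - c) := by
    rw [ht2, hD]
  have v := fun i => vertex_sum ha hb hc h1 h2 h3 htpos ht2' (hμ i 0) (hμ i 1) (hμ i 2) (hq i)
  have v0 := v 0
  have v1 := v 1
  have v2 := v 2
  have v3 := v 3
  have hA : (b ^ 2 + c ^ 2 - a ^ 2) ^ 2 + t ^ 2 = 4 * b ^ 2 * c ^ 2 := by rw [ht2']; ring
  have hB : (a ^ 2 + c ^ 2 - b ^ 2) ^ 2 + t ^ 2 = 4 * a ^ 2 * c ^ 2 := by rw [ht2']; ring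
  have hC : (a ^ 2 + b ^ 2 - c ^ 2) ^ 2 + t ^ 2 = 4 * a ^ 2 * b ^ 2 := by rw [ht2']; ring
  have q1 := pair_gt hb hc htpos hA (hμ 0 0) p1
  have q2 := pair_gt hb hc htpos hA (hμ 2 0) p2
  have q3 := pair_gt ha hc htpos hB (hμ 0 1) p3
  have q4 := pair_gt ha hc htpos hB (hμ 1 1) p4
  have q5 := pair_gt ha hb htpos hC (hμ 0 2) p5
  have q6 := pair_gt ha hb htpos hC (hμ 1 2) p6
  have hz : arctan ((b ^ 2 + c ^ 2 - a ^ 2) / t) + arctan ((a ^ 2 + c ^ 2 - b ^ 2) / t) +
      arctan ((a ^ 2 + b ^ 2 - c ^ 2) / t) = π / 2 := by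
    refine arctan_three_eq ?_ ?_ ?_ ?_
    · rw [← add_div]
      refine div_pos ?_ htpos
      have : b ^ 2 + c ^ 2 - a ^ 2 + (a ^ 2 + c ^ 2 - b ^ 2) = 2 * c ^ 2 := by ring
      rw [this]; positivity
    · rw [← add_div]
      refine div_pos ?_ htpos
      have : a ^ 2 + c ^ 2 - b ^ 2 + (a ^ 2 + b ^ 2 - c ^ 2) = 2 * a ^ 2 := by ring
      rw [this]; positivity
    · rw [← add_div]
      refine div_pos ?_ htpos
      have : a ^ 2 + b ^ 2 - c ^ 2 + (b ^ 2 + c ^ 2 - a ^ 2) = 2 * b ^ 2 := by ring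
      rw [this]; positivity
    · field_simp
      rw [ht2']
      ring
  linarith

end Pool.Agent.Work.MP_1f68be_co
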