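import Pool.Agent.Work.MP_1f68be_co.Defs

/-!
# MP_1f68be_co: the number of labels grows at least like `d ^ n`
-/

namespace Pool.Agent.Work.MP_1f68be_co

variable {d n : ℕ}

/-- A reduced word over `d + 1` letters from a word over `d` letters. -/
def wf : List (Fin d) → Word d
  | [] => []
  | a :: l => ((wf l).headD 0).succAbove a :: wf l

theorem wf_length (l : List (Fin d)) : (wf l).length = l.length := by
  induction l with
  | nil => rfl
  | cons a l ih => simp [wf, ih]

theorem wf_red (l : List (Fin d)) : Red (wf l) := by
  induction l with
  | nil => simp [wf, Red]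
  | cons a l ih =>
    unfold Red at ih ⊢
    rw [wf]
    cases h : wf l with
    | nil => simp
    | cons b t =>
      rw [h] at ih
      refine List.isChain_cons_cons.2 ⟨?_, ih⟩
      simp [Fin.succAbove_ne]

theorem wf_injective : Function.Injective (wf (d := d)) := by
  intro l
  induction l with
  | nil =>
    intro l' h
    cases l' with
    | nil => rfl
    | cons a l => simp [wf] at h
  | cons a l ih =>
    intro l' h
    cases l' with
    | nil => simp [wf] at h
    | cons b l' =>
      rw [wf, wf] at h
      obtain ⟨h1, h2⟩ := List.cons_eq_cons.1 h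
      have h3 := ih h2
      subst h3
      have h4 := Fin.succAbove_right_injective h1
      rw [h4]

theorem pow_le_card (hd : 1 ≤ d) (n : ℕ) :
    d ^ n ≤ (finite_isLab (d := d) n).toFinset.card := by
  have _ := hd
  rcases Nat.eq_zero_or_pos n with hn | hn
  · subst hn
    rw [pow_zero]
    refine Finset.card_pos.2 ⟨Sum.inl 0, ?_⟩
    rw [Set.Finite.mem_toFinset]
    trivial
  · have h1 : Fintype.card (Fin n → Fin d) = d ^ n := by simp
    rw [← h1, ← Finset.card_univ]
    refine Finset.card_le_card_of_injOn
      (fun v : Fin n → Fin d => (Sum.inr (wf (List.ofFn v)) : Lab d)) ?_ ?_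
    · intro v _
      rw [Finset.mem_coe, Set.Finite.mem_toFinset]
      refine ⟨?_, wf_red _, ?_⟩
      · intro h
        have h2 := congrArg List.length h
        rw [wf_length, List.length_ofFn] at h2
        simp at h2
        omega
      · rw [wf_length, List.length_ofFn]
    · intro v _ v' _ h
      exact List.ofFn_injective (wf_injective (Sum.inr.inj h))

end Pool.Agent.Work.MP_1f68be_co
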