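import Pool.Agent.Work.MP_1f68be_co.Null

/-!
# MP_1f68be_co: pushing four causal vectors to the light cone
-/

open scoped InnerProductSpace

namespace Pool.Agent.Work.MP_1f68be_co

variable {F : Type*} [NormedAddCommGroup F] [InnerProductSpace ℝ F]

/-- replacing `U m` by `U m - t • U k` and correcting the coefficients does not change the sums -/
theorem sum_push (U : Fin 4 → F × ℝ) {m k : Fin 4} (hkm : k ≠ m) (t : ℝ) (g : Fin 4 → ℝ) :
    ∑ j, (if j = k then g k + t * g m else g j) • Function.update U m (U m - t • U k) j =
      ∑ j, g j • U j := by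
  have h : ∀ j, (if j = k then g k + t * g m else g j) •
      Function.update U m (U m - t • U k) j = g j • U j +
        ((if j = k then (t * g m) • U k else 0) - (if j = m then (t * g m) • U k else 0)) := by
    intro j
    by_cases h1 : j = k
    · subst h1
      rw [if_pos rfl, if_pos rfl, if_neg hkm, Function.update_of_ne hkm, sub_zero, add_smul]
    · by_cases h2 : j = m
      · subst h2
        rw [if_neg h1, if_neg h1, if_pos rfl, Function.update_self, smul_sub, smul_smul,
          zero_sub, mul_comm (g j) t, sub_eq_add_neg]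
      · rw [if_neg h1, if_neg h1, if_neg h2, Function.update_of_ne h2, sub_zero, add_zero]
  simp_rw [h]
  rw [Finset.sum_add_distrib, Finset.sum_sub_distrib, Finset.sum_ite_eq', Finset.sum_ite_eq']
  simp

theorem linearIndependent_push {U : Fin 4 → F × ℝ} (hU : LinearIndependent ℝ U) {m k : Fin 4}
    (hkm : k ≠ m) (t : ℝ) : LinearIndependent ℝ (Function.update U m (U m - t • U k)) := by
  rw [Fintype.linearIndependent_iff] at hU ⊢
  intro g hg
  obtain ⟨f, hf⟩ : ∃ f : Fin 4 → ℝ, ∀ j, f j = if j = k then g k - t * g m else g j :=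
    ⟨_, fun _ => rfl⟩
  have hfk : f k = g k - t * g m := by rw [hf, if_pos rfl]
  have hfm : f m = g m := by rw [hf, if_neg (Ne.symm hkm)]
  have h2 : ∀ j, (if j = k then f k + t * f m else f j) = g j := by
    intro j
    by_cases h : j = k
    · subst h
      rw [if_pos rfl, hfk, hfm]
      ring
    · rw [if_neg h, hf, if_neg h]
  have h1 : ∑ j, g j • Function.update U m (U m - t • U k) j = ∑ j, f j • U j := by
    rw [← sum_push U hkm t f]
    exact Finset.sum_congr rfl fun j _ => by rw [h2 j]
  rw [hg] at h1
  have h3 := hU _ h1.symm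
  have h4 : g m = 0 := by rw [← hfm]; exact h3 m
  intro j
  by_cases h : j = k
  · subst h
    have h5 := h3 j
    rw [hfk, h4, mul_zero, sub_zero] at h5
    exact h5
  · have h5 := h3 j
    rwa [hf, if_neg h] at h5

theorem exists_third (k m : Fin 4) : ∃ i, i ≠ k ∧ i ≠ m := by
  revert k m; decide

theorem causal_case {F : Type*} [NormedAddCommGroup F] [InnerProductSpace ℝ F]
    (U : Fin 4 → F × ℝ) (hU : LinearIndependent ℝ U)
    (hc : ∀ i, ‖(U i).1‖ ≤ (U i).2) (L : Fin 4 → Fin 4 → ℝ)
    (hneg : ∀ i, L i i < 0) (hpos : ∀ i j, i ≠ j → 0 < L i j)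
    (hnull : ∀ i, ‖(∑ j, L i j • U j).1‖ = (∑ j, L i j • U j).2)
    (hridge : ∀ i j, i ≠ j → L i i * L j j < L i j * L j i) : False := by
  classical
  obtain ⟨n, hn⟩ : ∃ n, (Finset.univ.filter fun i => ‖(U i).1‖ ≠ (U i).2).card = n := ⟨_, rfl⟩
  induction n generalizing U L with
  | zero =>
    rw [Finset.card_eq_zero, Finset.filter_eq_empty_iff] at hn
    exact null_case U hU (fun i => by simpa using hn (Finset.mem_univ i)) L hneg hpos hnull hridge
  | succ n ih =>
    have hne : (Finset.univ.filter fun i => ‖(U i).1‖ ≠ (U i).2).Nonempty := by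
      rw [← Finset.card_pos, hn]; exact Nat.succ_pos n
    obtain ⟨m, hm⟩ := hne
    have hm1 : ‖(U m).1‖ ≠ (U m).2 := (Finset.mem_filter.1 hm).2
    have hm2 : ‖(U m).1‖ < (U m).2 := lt_of_le_of_ne (hc m) hm1
    obtain ⟨k, hkm⟩ := exists_ne m
    have hk2 : 0 < (U k).2 := by
      rcases ((norm_nonneg _).trans (hc k)).lt_or_eq with h | h
      · exact h
      · exfalso
        apply hU.ne_zero k
        have h3 : ‖(U k).1‖ = 0 := le_antisymm ((hc k).trans h.symm.le) (norm_nonneg _)
        exact Prod.ext (norm_eq_zero.1 h3) h.symm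
    set φ : ℝ → ℝ := fun t => (U m - t • U k).2 - ‖(U m - t • U k).1‖ with hφ
    have hφc : Continuous φ := by
      rw [hφ]; fun_prop
    have hφ0 : 0 < φ 0 := by
      simp only [hφ, zero_smul, sub_zero]; linarith
    set t0 : ℝ := (U m).2 / (U k).2 with ht0
    have ht0n : 0 ≤ t0 := div_nonneg ((norm_nonneg _).trans hm2.le) hk2.le
    have hφt : φ t0 ≤ 0 := by
      have h1 : (U m - t0 • U k).2 = 0 := by
        rw [Prod.snd_sub, Prod.smul_snd, smul_eq_mul, ht0, div_mul_cancel₀ _ hk2.ne', sub_self]
      simp only [hφ, h1, zero_sub]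
      exact neg_nonpos.2 (norm_nonneg _)
    obtain ⟨t, ht, htφ⟩ := intermediate_value_Icc' ht0n hφc.continuousOn ⟨hφt, hφ0.le⟩
    have htpos : 0 < t := by
      rcases ht.1.lt_or_eq with h | h
      · exact h
      · rw [← h] at htφ; linarith
    set U' : Fin 4 → F × ℝ := Function.update U m (U m - t • U k) with hU'
    have hU'm : ‖(U' m).1‖ = (U' m).2 := by
      rw [hU', Function.update_self]
      simp only [hφ] at htφ
      linarith
    have hU'ne : ∀ i, i ≠ m → U' i = U i := fun i hi => by rw [hU', Function.update_of_ne hi]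
    have hU'c : ∀ i, ‖(U' i).1‖ ≤ (U' i).2 := by
      intro i
      by_cases h : i = m
      · subst h; exact hU'm.le
      · rw [hU'ne i h]; exact hc i
    have hU'l : LinearIndependent ℝ U' := linearIndependent_push hU hkm t
    set L' : Fin 4 → Fin 4 → ℝ := fun i j => if j = k then L i k + t * L i m else L i j with hL'
    have hL'k : ∀ i, L' i k = L i k + t * L i m := fun i => by simp [hL']
    have hL'ne : ∀ i j, j ≠ k → L' i j = L i j := fun i j hj => by simp [hL', hj]
    have hV : ∀ i, ∑ j, L' i j • U' j = ∑ j, L i j • U j := fun i => sum_push U hkm t (L i)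
    have h1 : L' k k < 0 := by
      by_contra hcon
      push Not at hcon
      obtain ⟨i, hik, him⟩ := exists_third k m
      have h2 := norm_lt_of_combination (U := U') hU'c (L' k) (fun j => by
        by_cases h : j = k
        · subst h; exact hcon
        · rw [hL'ne k j h]; exact (hpos k j (Ne.symm h)).le) (i := i) (j := m)
        (by rw [hL'ne k i hik]; exact hpos k i (Ne.symm hik))
        (by rw [hL'ne k m (Ne.symm hkm)]; exact hpos k m hkm)
        (lq_pos_of_linearIndependent hU'l hU'c him)
      rw [hV k] at h2
      exact h2.ne (hnull k)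
    rw [hL'k] at h1
    have pkm : 0 < L k m := hpos k m hkm
    have pmk : 0 < L m k := hpos m k (Ne.symm hkm)
    have nm : L m m < 0 := hneg m
    have nk : L k k < 0 := hneg k
    have rkm := hridge k m hkm
    have h2 : 0 < L m k + t * L m m := by
      have h3 : 0 < (-(L k k + t * L k m)) * (-L m m) := mul_pos (by linarith) (by linarith)
      have h4 : 0 < L k m * (L m k + t * L m m) := by nlinarith
      exact (pos_iff_pos_of_mul_pos h4).1 pkm
    refine ih U' hU'l hU'c L' ?_ ?_ ?_ ?_ ?_
    · intro i
      by_cases h : i = k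
      · subst h; rw [hL'k]; exact h1
      · rw [hL'ne i i h]; exact hneg i
    · intro i j hij
      by_cases h : j = k
      · subst h
        rw [hL'k]
        by_cases him : i = m
        · subst him; exact h2
        · exact add_pos (hpos i j hij) (mul_pos htpos (hpos i m him))
      · rw [hL'ne i j h]; exact hpos i j hij
    · intro i
      rw [hV]; exact hnull i
    · have hk3 : ∀ j, j ≠ k → L' k k * L' j j < L' k j * L' j k := by
        intro j hj
        rw [hL'k, hL'k, hL'ne j j hj, hL'ne k j hj]
        by_cases h : j = m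
        · subst h
          nlinarith
        · have r1 := hridge k j (Ne.symm hj)
          have r2 : 0 < t * L k m * (-L j j) := mul_pos (mul_pos htpos pkm) (by
            linarith [hneg j])
          have r3 : 0 < L k j * (t * L j m) := mul_pos (hpos k j (Ne.symm hj))
            (mul_pos htpos (hpos j m h))
          nlinarith
      intro i j hij
      by_cases hi : i = k
      · subst hi; exact hk3 j (Ne.symm hij)
      · by_cases hj : j = k
        · subst hj
          have := hk3 i hi
          rw [mul_comm (L' i i), mul_comm (L' i j)]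
          exact this
        · rw [hL'ne i i hi, hL'ne j j hj, hL'ne i j hj, hL'ne j i hi]
          exact hridge i j hij
    · have h3 : (Finset.univ.filter fun i => ‖(U' i).1‖ ≠ (U' i).2) =
          (Finset.univ.filter fun i => ‖(U i).1‖ ≠ (U i).2).erase m := by
        ext i
        simp only [Finset.mem_filter, Finset.mem_univ, true_and, Finset.mem_erase]
        by_cases h : i = m
        · subst h
          simp [hU'm]
        · rw [hU'ne i h]
          simp [h]
      rw [h3, Finset.card_erase_of_mem hm, hn]
      rfl

end Pool.Agent.Work.MP_1f68be_co
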