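import Pool.Agent.Work.MP_1f68be_co.Defs

/-!
# MP_1f68be_co: counting in the stacking tree
-/

namespace Pool.Agent.Work.MP_1f68be_co

open Classical in
/-- the words of length `k` that are suffixes of a word in `S` -/
noncomputable def suff {d : ℕ} (S : Finset (Word d)) (k : ℕ) : Finset (Word d) :=
  (S.filter fun u => k ≤ u.length).image fun u => u.drop (u.length - k)

lemma mem_suff {d : ℕ} {S : Finset (Word d)} {k : ℕ} {w : Word d} :
    w ∈ suff S k ↔ w.length = k ∧ ∃ u ∈ S, w <:+ u := by
  classical
  unfold suff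
  simp only [Finset.mem_image, Finset.mem_filter]
  constructor
  · rintro ⟨u, ⟨hu, hk⟩, rfl⟩
    refine ⟨?_, u, hu, List.drop_suffix _ _⟩
    rw [List.length_drop]
    omega
  · rintro ⟨hw, u, hu, hwu⟩
    refine ⟨u, ⟨hu, ?_⟩, ?_⟩
    · rw [← hw]; exact hwu.length_le
    · rw [← hw]
      exact (List.suffix_iff_eq_drop.1 hwu).symm

open Classical in
/-- the children of `w` -/
noncomputable def chil {d : ℕ} (S : Finset (Word d)) (w : Word d) : Finset (Fin (d + 1)) :=
  Finset.univ.filter fun i => ∃ u ∈ S, (i :: w) <:+ u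

lemma mem_chil {d : ℕ} {S : Finset (Word d)} {w : Word d} {i : Fin (d + 1)} :
    i ∈ chil S w ↔ ∃ u ∈ S, (i :: w) <:+ u := by
  simp [chil]

lemma card_suff_succ {d : ℕ} (S : Finset (Word d)) (k : ℕ) :
    (suff S (k + 1)).card ≤ ∑ w ∈ suff S k, (chil S w).card := by
  classical
  have hsub : suff S (k + 1) ⊆ (suff S k).biUnion fun w => (chil S w).image fun i => i :: w := by
    intro v hv
    obtain ⟨hl, u, hu, hvu⟩ := mem_suff.1 hv
    cases v with
    | nil => simp at hl
    | cons i w =>
      rw [Finset.mem_biUnion]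
      refine ⟨w, mem_suff.2 ⟨?_, u, hu, (List.suffix_cons i w).trans hvu⟩, ?_⟩
      · simpa using hl
      · rw [Finset.mem_image]
        exact ⟨i, mem_chil.2 ⟨u, hu, hvu⟩, rfl⟩
  calc (suff S (k + 1)).card ≤ _ := Finset.card_le_card hsub
    _ ≤ ∑ w ∈ suff S k, ((chil S w).image fun i => i :: w).card := Finset.card_biUnion_le
    _ ≤ ∑ w ∈ suff S k, (chil S w).card := Finset.sum_le_sum fun w _ => Finset.card_image_le

theorem count_words {d n : ℕ} (S : Finset (Word d))
    (hS : ∀ u ∈ S, u ≠ [] ∧ Red u ∧ u.length ≤ n)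
    (h : ∀ w : Word d, Red w → w.length < n → ∀ J : Finset (Fin (d + 1)),
      (∀ i ∈ J, (∃ u ∈ S, (i :: w) <:+ u) ∨
        ∃ w', w = i :: w' ∧ ∃ u ∈ S, w.length < u.length ∧ ¬ w <:+ u) → J.card ≤ 3) :
    S.card ≤ 3 * 2 ^ n := by
  classical
  have hred : ∀ k, ∀ w ∈ suff S k, Red w := by
    intro k w hw
    obtain ⟨-, u, hu, hwu⟩ := mem_suff.1 hw
    exact (hS u hu).2.1.suffix hwu
  have hch3 : ∀ k < n, ∀ w ∈ suff S k, (chil S w).card ≤ 3 := by
    intro k hk w hw
    refine h w (hred k w hw) ?_ _ fun i hi => Or.inl (mem_chil.1 hi)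
    rw [(mem_suff.1 hw).1]
    exact hk
  have hstep : ∀ k, k + 1 < n → (suff S (k + 2)).card ≤ max (2 * (suff S (k + 1)).card) 3 := by
    intro k hk
    refine (card_suff_succ S (k + 1)).trans ?_
    by_cases hone : ∃ w ∈ suff S (k + 1), ∃ w2 ∈ suff S (k + 1), w ≠ w2 ∧
        (chil S w).Nonempty ∧ (chil S w2).Nonempty
    · refine le_max_of_le_left ?_
      have h2 : ∀ w ∈ suff S (k + 1), (chil S w).card ≤ 2 := by
        intro w hw
        -- there is another word with children
        have hex : ∃ w2 ∈ suff S (k + 1), w2 ≠ w ∧ (chil S w2).Nonempty := by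
          obtain ⟨a, ha, b, hb, hab, hna, hnb⟩ := hone
          by_cases haw : a = w
          · exact ⟨b, hb, fun hbw => hab (haw.trans hbw.symm), hnb⟩
          · exact ⟨a, ha, haw, hna⟩
        obtain ⟨w2, hw2, hne, i, hi⟩ := hex
        obtain ⟨u2, hu2, hiu⟩ := mem_chil.1 hi
        have hl := (mem_suff.1 hw).1
        have hl2 := (mem_suff.1 hw2).1
        have hlen : w.length < u2.length := by
          have := hiu.length_le
          rw [List.length_cons] at this
          omega
        have hnot : ¬ w <:+ u2 := by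
          intro hwu
          have h1 := List.suffix_iff_eq_drop.1 hwu
          have h2 := List.suffix_iff_eq_drop.1 ((List.suffix_cons i w2).trans hiu)
          rw [hl] at h1
          rw [hl2] at h2
          exact hne (h2.trans h1.symm)
        cases w with
        | nil => simp at hl
        | cons j w' =>
          have hj : j ∉ chil S (j :: w') := by
            intro hj
            obtain ⟨u, hu, hju⟩ := mem_chil.1 hj
            have hr : Red (j :: j :: w') := (hS u hu).2.1.suffix hju
            unfold Red at hr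
            rw [List.isChain_cons_cons] at hr
            exact hr.1 rfl
          have h3 := h (j :: w') (hred _ _ hw) (by rw [hl]; omega) (insert j (chil S (j :: w'))) ?_
          · rw [Finset.card_insert_of_notMem hj] at h3
            omega
          · intro i hi
            rcases Finset.mem_insert.1 hi with rfl | hi
            · exact Or.inr ⟨w', rfl, u2, hu2, hlen, hnot⟩
            · exact Or.inl (mem_chil.1 hi)
      calc ∑ w ∈ suff S (k + 1), (chil S w).card ≤ ∑ _w ∈ suff S (k + 1), 2 :=
            Finset.sum_le_sum h2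
        _ = 2 * (suff S (k + 1)).card := by rw [Finset.sum_const, smul_eq_mul, mul_comm]
    · refine le_max_of_le_right ?_
      by_cases hex : ∃ w ∈ suff S (k + 1), (chil S w).Nonempty
      · obtain ⟨w, hw, hwn⟩ := hex
        rw [Finset.sum_eq_single_of_mem w hw]
        · exact hch3 (k + 1) hk w hw
        · intro b hb hbw
          rw [Finset.card_eq_zero, ← Finset.not_nonempty_iff_eq_empty]
          intro hbn
          exact hone ⟨b, hb, w, hw, hbw, hbn, hwn⟩
      · rw [Finset.sum_eq_zero]
        · omega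
        · intro b hb
          rw [Finset.card_eq_zero, ← Finset.not_nonempty_iff_eq_empty]
          intro hbn
          exact hex ⟨b, hb, hbn⟩
  have hW : ∀ k, k < n → (suff S (k + 1)).card ≤ 3 * 2 ^ k := by
    intro k
    induction k with
    | zero =>
      intro hn
      refine (card_suff_succ S 0).trans ?_
      have h0 : suff S 0 ⊆ {[]} := by
        intro w hw
        rw [Finset.mem_singleton]
        exact List.length_eq_zero_iff.1 (mem_suff.1 hw).1
      calc ∑ w ∈ suff S 0, (chil S w).card ≤ ∑ w ∈ suff S 0, 3 :=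
            Finset.sum_le_sum (hch3 0 hn)
        _ = (suff S 0).card * 3 := by rw [Finset.sum_const, smul_eq_mul]
        _ ≤ 1 * 3 := by
            gcongr
            exact (Finset.card_le_card h0).trans (by simp)
        _ = 3 * 2 ^ 0 := by norm_num
    | succ k ih =>
      intro hk
      have h1 := ih (by omega)
      refine (hstep k hk).trans (max_le ?_ ?_)
      · calc 2 * (suff S (k + 1)).card ≤ 2 * (3 * 2 ^ k) := by gcongr
          _ = 3 * 2 ^ (k + 1) := by ring
      · have : 1 ≤ 2 ^ (k + 1) := Nat.one_le_two_pow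
        omega
  have hsub : S ⊆ (Finset.range n).biUnion fun k => suff S (k + 1) := by
    intro u hu
    obtain ⟨h1, h2, h3⟩ := hS u hu
    have hpos : 0 < u.length := List.length_pos_iff.2 h1
    rw [Finset.mem_biUnion]
    refine ⟨u.length - 1, Finset.mem_range.2 (by omega), mem_suff.2 ⟨by omega, u, hu, List.suffix_refl u⟩⟩
  have hgeom : ∀ m : ℕ, ∑ k ∈ Finset.range m, 3 * 2 ^ k ≤ 3 * 2 ^ m := by
    intro m
    induction m with
    | zero => simp
    | succ m ih =>
      rw [Finset.sum_range_succ]
      calc _ ≤ 3 * 2 ^ m + 3 * 2 ^ m := by gcongr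
        _ = 3 * 2 ^ (m + 1) := by ring
  calc S.card ≤ _ := Finset.card_le_card hsub
    _ ≤ ∑ k ∈ Finset.range n, (suff S (k + 1)).card := Finset.card_biUnion_le
    _ ≤ ∑ k ∈ Finset.range n, 3 * 2 ^ k :=
        Finset.sum_le_sum fun k hk => hW k (Finset.mem_range.1 hk)
    _ ≤ 3 * 2 ^ n := hgeom n

end Pool.Agent.Work.MP_1f68be_co
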