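import Mathlib

/-!
# MP_1f68be_co: definitions

Vertex sets of convex polytopes in `R^d`, faces, combinatorial equivalence, the stacking tree of
the iterated Kleetope over the `d`-simplex and its explicit realisation.
-/

open scoped InnerProductSpace

namespace Pool.Agent.Work.MP_1f68be_co

/-- Euclidean `d`-space. -/
abbrev E (d : ℕ) : Type := EuclideanSpace ℝ (Fin d)

/-- `A` is the set of those points of `V` that lie on a supporting hyperplane (the maximisers of
a linear functional); for the vertex set `V` of a polytope these are exactly the vertex sets of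
the nonempty faces. -/
def IsFace {d : ℕ} (V A : Set (E d)) : Prop :=
  ∃ l : E d →L[ℝ] ℝ, ∀ x, x ∈ A ↔ (x ∈ V ∧ ∀ w ∈ V, l w ≤ l x)

/-- `V` is the vertex set of a `d`-polytope in `R^d`. -/
def IsPolytope {d : ℕ} (V : Finset (E d)) : Prop :=
  affineSpan ℝ (V : Set (E d)) = ⊤ ∧ ∀ v ∈ V, v ∉ convexHull ℝ ((V : Set (E d)) \ {v})

/-- All proper faces are simplices. -/
def IsSimplicial {d : ℕ} (V : Finset (E d)) : Prop :=
  ∀ A : Set (E d), IsFace (V : Set (E d)) A → A ≠ (V : Set (E d)) →
    AffineIndependent ℝ (Subtype.val : A → E d)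

/-- `f` induces a combinatorial equivalence between the polytopes with vertex sets `V`, `W`. -/
def CombEquiv {d : ℕ} (V W : Finset (E d)) (f : E d → E d) : Prop :=
  Set.BijOn f (V : Set (E d)) (W : Set (E d)) ∧
    ∀ A : Set (E d), A ⊆ (V : Set (E d)) →
      (IsFace (V : Set (E d)) A ↔ IsFace (W : Set (E d)) (f '' A))

/-- The nodes of the stacking tree: words in the letters `0, …, d`, the most recent letter
first. -/
abbrev Word (d : ℕ) : Type := List (Fin (d + 1))

/-- Reduced words: no two neighbouring letters are equal. -/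
def Red {d : ℕ} (w : Word d) : Prop := w.IsChain (· ≠ ·)

/-- The labels of the vertices: the `d + 1` vertices of the initial simplex, and one new vertex
for every nonempty reduced word. -/
abbrev Lab (d : ℕ) : Type := Fin (d + 1) ⊕ Word d

/-- The simplex at a node: the simplex at `i :: w` shares with the simplex at `w` the facet
opposite to the vertex number `i`, and its vertex number `i` is the new vertex `i :: w`. -/
def T {d : ℕ} : Word d → Fin (d + 1) → Lab d
  | [] => Sum.inl
  | i :: w => Function.update (T w) i (Sum.inr (i :: w))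

/-- The labels that occur after `n` steps. -/
def IsLab {d : ℕ} (n : ℕ) : Lab d → Prop
  | Sum.inl _ => True
  | Sum.inr u => u ≠ [] ∧ Red u ∧ u.length ≤ n

/-- All ridges of all simplices of the tree are faces of the point configuration `g`. -/
def RidgeProp {d : ℕ} (n : ℕ) (g : Lab d → E d) : Prop :=
  ∀ w : Word d, Red w → w.length ≤ n → ∀ i j : Fin (d + 1), i ≠ j →
    ∃ l : E d →L[ℝ] ℝ, ∃ M : ℝ, (∀ k, k ≠ i → k ≠ j → l (g (T w k)) = M) ∧
      ∀ y : Lab d, IsLab n y → (∀ k, k ≠ i → k ≠ j → T w k ≠ y) → l (g y) < M

/-- The point `p` lies beyond exactly the facet opposite to vertex `i` of the simplex with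
vertices `x k`. -/
def Beyond {d : ℕ} (x : Fin (d + 1) → E d) (p : E d) (i : Fin (d + 1)) : Prop :=
  ∃ lam : Fin (d + 1) → ℝ, ∑ k, lam k = 1 ∧ ∑ k, lam k • x k = p ∧ lam i < 0 ∧
    ∀ k, k ≠ i → 0 < lam k

/-- Homogeneous coordinates of the vertices of the simplex at a node. -/
def X {d : ℕ} : Word d → Fin (d + 1) → (Fin (d + 1) → ℝ)
  | [] => fun k => Pi.single k 1
  | i :: w => Function.update (X w) i (-X w i + (3 : ℝ) • ∑ j ∈ Finset.univ.erase i, X w j)

/-- Homogeneous coordinates of the labelled vertices. -/
def vec {d : ℕ} : Lab d → (Fin (d + 1) → ℝ)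
  | Sum.inl k => Pi.single k 1
  | Sum.inr [] => 0
  | Sum.inr (i :: w) => X (i :: w) i

/-- The reflection `v ↦ s_i v`. -/
def refl {d : ℕ} (i : Fin (d + 1)) (v : Fin (d + 1) → ℝ) : Fin (d + 1) → ℝ :=
  fun j => if j = i then -v i else v j + 3 * v i

/-- The coordinates with respect to the simplex at a node. -/
def C {d : ℕ} : Word d → (Fin (d + 1) → ℝ) → (Fin (d + 1) → ℝ)
  | [] => id
  | i :: w => fun v => refl i (C w v)

/-- Coordinate `i` is negative and all other coordinates are at least twice as large. -/
def NegAt {d : ℕ} (v : Fin (d + 1) → ℝ) (i : Fin (d + 1)) : Prop :=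
  v i < 0 ∧ ∀ k, k ≠ i → -2 * v i ≤ v k

/-- The realisation in `R^d`: central projection to the hyperplane where the sum of the
coordinates is `1`, dropping the last coordinate. -/
noncomputable def pt {d : ℕ} (y : Lab d) : E d :=
  WithLp.toLp 2 fun k : Fin d => vec y k.castSucc / ∑ j, vec y j

theorem finite_isLab {d : ℕ} (n : ℕ) : {y : Lab d | IsLab n y}.Finite := by
  have h1 : {u : Word d | u.length ≤ n}.Finite := List.finite_length_le _ n
  have h2 : ((Set.range (Sum.inl : Fin (d + 1) → Lab d)) ∪
      (Sum.inr '' {u : Word d | u.length ≤ n})).Finite :=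
    (Set.finite_range _).union (h1.image _)
  refine h2.subset ?_
  rintro (k | u) hy
  · exact Or.inl ⟨k, rfl⟩
  · exact Or.inr ⟨u, hy.2.2, rfl⟩

open Classical in
/-- The vertex set of the `n` times iterated Kleetope over the `d`-simplex. -/
noncomputable def kleetope (d n : ℕ) : Finset (E d) :=
  (finite_isLab (d := d) n).toFinset.image pt

/-- The Lorentzian inner product on `F × ℝ`. -/
noncomputable def lq {F : Type*} [NormedAddCommGroup F] [InnerProductSpace ℝ F]
    (x y : F × ℝ) : ℝ := x.2 * y.2 - ⟪x.1, y.1⟫_ℝ

open Classical in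
/-- The largest number of vertices on a sphere, over all polytopes of the combinatorial type of
`V` that are contained in the ball bounded by this sphere. -/
noncomputable def s0 {d : ℕ} (V : Finset (E d)) : ℕ :=
  sSup {s : ℕ | ∃ (W : Finset (E d)) (f : E d → E d), IsPolytope W ∧ CombEquiv V W f ∧
    ∃ (c : E d) (r : ℝ), 0 < r ∧ (∀ w ∈ W, dist w c ≤ r) ∧
      s = (W.filter fun w => dist w c = r).card}

/-- The simplicial `d`-polytopes (their vertex sets). -/
def SimplicialPolytope (d : ℕ) : Type := {V : Finset (E d) // IsPolytope V ∧ IsSimplicial V}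

/-- The inscribability exponent of the family of simplicial `d`-polytopes. -/
noncomputable def simplicialExponent (d : ℕ) : EReal :=
  Filter.liminf (fun V : SimplicialPolytope d =>
    ((Real.log (s0 V.1) / Real.log (V.1.card) : ℝ) : EReal))
    (Filter.comap (fun V : SimplicialPolytope d => V.1.card) Filter.atTop)

end Pool.Agent.Work.MP_1f68be_co
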