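import Pool.Agent.Work.MP_1f68be_co.Lor
import Pool.Agent.Work.MP_1f68be_co.CausalCase

/-!
# MP_1f68be_co: at most three stacked directions
-/

open scoped InnerProductSpace

namespace Pool.Agent.Work.MP_1f68be_co

/-- Homogenised points of an affinely independent family are linearly independent. -/
theorem key_indep {F : Type*} [NormedAddCommGroup F] [InnerProductSpace ℝ F]
    {κ : Type*} [Fintype κ] (v : κ → F) (hv : AffineIndependent ℝ v) (c : F) (r : ℝ)
    (hr : 0 < r) : LinearIndependent ℝ (fun k => ((v k - c, r) : F × ℝ)) := by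
  rw [Fintype.linearIndependent_iff]
  intro g hg i
  have h1 : ∑ k, g k • (v k - c) = 0 := by
    have := congrArg Prod.fst hg
    simpa [Prod.fst_sum] using this
  have h2 : (∑ k, g k) * r = 0 := by
    have := congrArg Prod.snd hg
    simp only [Prod.snd_sum, Prod.smul_snd, smul_eq_mul, Prod.snd_zero] at this
    rw [Finset.sum_mul]
    exact this
  have h3 : ∑ k, g k = 0 := (mul_eq_zero.1 h2).resolve_right hr.ne'
  have h4 : ∑ k, g k • v k = 0 := by
    simp only [smul_sub, Finset.sum_sub_distrib, ← Finset.sum_smul, h3, zero_smul,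
      sub_zero] at h1
    exact h1
  exact (affineIndependent_iff.1 hv) Finset.univ g h3 h4 i (Finset.mem_univ i)

/-- Shrinking the negative coefficient until the vector reaches the light cone. -/
theorem key_shrink {F : Type*} [NormedAddCommGroup F] [InnerProductSpace ℝ F]
    (P W Z : F × ℝ) (m1 : ℝ) (hm1 : 0 < m1) (hW : ‖W.1‖ < W.2)
    (hZ : ‖Z.1‖ ≤ Z.2)
    (hY : ‖((-m1) • P + W + Z).1‖ = ((-m1) • P + W + Z).2) :
    ∃ m : ℝ, 0 < m ∧ m ≤ m1 ∧ ‖((-m) • P + W).1‖ = ((-m) • P + W).2 := by
  let f : ℝ → ℝ := fun m => ((-m) • P + W).2 - ‖((-m) • P + W).1‖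
  have hf : Continuous f := by
    have h0 : Continuous fun m : ℝ => (-m) • P + W :=
      (continuous_neg.smul continuous_const).add continuous_const
    exact (continuous_snd.comp h0).sub (continuous_norm.comp (continuous_fst.comp h0))
  have hf0 : 0 < f 0 := by
    simp only [f, neg_zero, zero_smul, zero_add]
    linarith
  have hf1 : f m1 ≤ 0 := by
    by_contra hcon
    push Not at hcon
    have h1 : ‖((-m1) • P + W).1‖ < ((-m1) • P + W).2 := by
      simp only [f] at hcon
      linarith
    have h2 : ‖((-m1) • P + W + Z).1‖ ≤ ‖((-m1) • P + W).1‖ + ‖Z.1‖ := by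
      rw [Prod.fst_add (p := (-m1) • P + W) (q := Z)]
      exact norm_add_le _ _
    have h3 : ((-m1) • P + W + Z).2 = ((-m1) • P + W).2 + Z.2 := rfl
    rw [hY, h3] at h2
    linarith
  obtain ⟨m, ⟨hm0, hm2⟩, hm⟩ :=
    intermediate_value_Icc' hm1.le hf.continuousOn ⟨hf1, hf0.le⟩
  refine ⟨m, ?_, hm2, ?_⟩
  · rcases hm0.lt_or_eq with h | h
    · exact h
    · rw [← h] at hm
      exact absurd hm hf0.ne'
  · simp only [f] at hm
    linarith

theorem key_two (a : Fin 4) : ∃ i j : Fin 4, i ≠ a ∧ j ≠ a ∧ i ≠ j := by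
  revert a
  decide

/-- At most three facets of a simplex in a ball carry stacked points on the sphere, if the
ridges stay convex. -/
theorem key_lemma {F : Type*} [NormedAddCommGroup F] [InnerProductSpace ℝ F]
    {ι : Type*} [Fintype ι] [DecidableEq ι] (u : ι → F) (hu : AffineIndependent ℝ u)
    (c : F) (r : ℝ) (hr : 0 < r) (hball : ∀ k, ‖u k - c‖ ≤ r)
    (I : Fin 4 → ι) (hI : Function.Injective I)
    (L : Fin 4 → ι → ℝ) (hsum : ∀ a, ∑ k, L a k = 1) (hneg : ∀ a, L a (I a) < 0)
    (hpos : ∀ a k, k ≠ I a → 0 < L a k)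
    (hsph : ∀ a, ‖(∑ k, L a k • u k) - c‖ = r)
    (hridge : ∀ a b, a ≠ b → L a (I a) * L b (I b) < L a (I b) * L b (I a)) : False := by
  -- the homogenised points
  have hU : LinearIndependent ℝ (fun a : Fin 4 => ((u (I a) - c, r) : F × ℝ)) :=
    key_indep (fun a => u (I a)) (hu.comp_embedding ⟨I, hI⟩) c r hr
  have hc' : ∀ k : ι, Causal ((u k - c, r) : F × ℝ) := fun k => hball k
  have hc : ∀ a : Fin 4, Causal ((u (I a) - c, r) : F × ℝ) := fun a => hball (I a)
  -- the vectors of the stacked points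
  have hY : ∀ a, (∑ k, L a k • ((u k - c, r) : F × ℝ)) = ((∑ k, L a k • u k) - c, r) := by
    intro a
    refine Prod.ext ?_ ?_
    · rw [Prod.fst_sum]
      simp only [Prod.smul_fst, smul_sub, Finset.sum_sub_distrib, ← Finset.sum_smul, hsum a,
        one_smul]
    · rw [Prod.snd_sum]
      simp only [Prod.smul_snd, smul_eq_mul, ← Finset.sum_mul, hsum a, one_mul]
  have hstep : ∀ a : Fin 4, ∃ m : ℝ, 0 < m ∧ m ≤ -L a (I a) ∧
      ‖((-m) • ((u (I a) - c, r) : F × ℝ) +
        ∑ b ∈ Finset.univ.erase a, L a (I b) • ((u (I b) - c, r) : F × ℝ)).1‖ =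
      ((-m) • ((u (I a) - c, r) : F × ℝ) +
        ∑ b ∈ Finset.univ.erase a, L a (I b) • ((u (I b) - c, r) : F × ℝ)).2 := by
    intro a
    refine key_shrink _ _ (∑ k ∈ (Finset.univ.map ⟨I, hI⟩)ᶜ, L a k • ((u k - c, r) : F × ℝ))
      (-L a (I a)) (neg_pos.2 (hneg a)) ?_ ?_ ?_
    · obtain ⟨i, j, hia, hja, hij⟩ := key_two a
      have h1 := norm_lt_of_combination hc (fun b => if b = a then 0 else L a (I b))
        (fun b => by
          by_cases hb : b = a
          · simp [hb]
          · simp only [hb, if_false]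
            exact (hpos a _ fun h => hb (hI h)).le)
        (i := i) (j := j)
        (by simp only [hia, if_false]; exact hpos a _ fun h => hia (hI h))
        (by simp only [hja, if_false]; exact hpos a _ fun h => hja (hI h))
        (lq_pos_of_linearIndependent hU hc hij)
      have h2 : ∑ b, (if b = a then (0 : ℝ) else L a (I b)) • ((u (I b) - c, r) : F × ℝ) =
          ∑ b ∈ Finset.univ.erase a, L a (I b) • ((u (I b) - c, r) : F × ℝ) := by
        rw [← Finset.add_sum_erase _ _ (Finset.mem_univ a)]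
        rw [if_pos rfl, zero_smul, zero_add]
        refine Finset.sum_congr rfl fun b hb => ?_
        rw [if_neg (Finset.ne_of_mem_erase hb)]
      rw [h2] at h1
      exact h1
    · exact causal_sum fun k hk => (hc' k).smul (hpos a k fun h => by
        rw [Finset.mem_compl, h] at hk
        exact hk (Finset.mem_map_of_mem ⟨I, hI⟩ (Finset.mem_univ a))).le
    · have h1 : - -L a (I a) = L a (I a) := neg_neg _
      rw [h1, Finset.add_sum_erase _ (fun b => L a (I b) • ((u (I b) - c, r) : F × ℝ))
        (Finset.mem_univ a)]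
      have h2 : ∑ b, L a (I b) • ((u (I b) - c, r) : F × ℝ) =
          ∑ k ∈ Finset.univ.map ⟨I, hI⟩, L a k • ((u k - c, r) : F × ℝ) := by
        rw [Finset.sum_map]
        rfl
      rw [h2, Finset.sum_add_sum_compl, hY a]
      exact hsph a
  choose m hm0 hm1 hm using hstep
  refine causal_case (fun a : Fin 4 => ((u (I a) - c, r) : F × ℝ)) hU hc
    (fun a b => if b = a then -m a else L a (I b)) ?_ ?_ ?_ ?_
  · intro a
    simp only [if_true]
    exact neg_neg_of_pos (hm0 a)
  · intro a b hab
    simp only [if_neg hab.symm]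
    exact hpos a _ fun h => hab (hI h).symm
  · intro a
    have h1 : ∑ b, (if b = a then -m a else L a (I b)) • ((u (I b) - c, r) : F × ℝ) =
        (-m a) • ((u (I a) - c, r) : F × ℝ) +
        ∑ b ∈ Finset.univ.erase a, L a (I b) • ((u (I b) - c, r) : F × ℝ) := by
      rw [← Finset.add_sum_erase _ _ (Finset.mem_univ a), if_pos rfl]
      congr 1
      refine Finset.sum_congr rfl fun b hb => ?_
      rw [if_neg (Finset.ne_of_mem_erase hb)]
    rw [h1]
    exact hm a
  · intro a b hab
    simp only [if_true, if_neg hab, if_neg hab.symm]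
    have h1 : -m a * -m b = m a * m b := by ring
    have h2 : m a * m b ≤ (-L a (I a)) * (-L b (I b)) :=
      mul_le_mul (hm1 a) (hm1 b) (hm0 b).le ((hm0 a).le.trans (hm1 a))
    have h3 := hridge a b hab
    have h4 : (-L a (I a)) * (-L b (I b)) = L a (I a) * L b (I b) := by ring
    rw [h1]
    rw [h4] at h2
    exact h2.trans_lt h3

end Pool.Agent.Work.MP_1f68be_co
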