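import Pool.Agent.Work.MP_1f68be_co.Defs

/-!
# MP_1f68be_co: causal vectors in `F × ℝ`
-/

open scoped InnerProductSpace

namespace Pool.Agent.Work.MP_1f68be_co

set_option linter.unusedSectionVars false

variable {F : Type*} [NormedAddCommGroup F] [InnerProductSpace ℝ F]

/-- Future causal vectors. -/
def Causal (x : F × ℝ) : Prop := ‖x.1‖ ≤ x.2

theorem Causal.nonneg {x : F × ℝ} (hx : Causal x) : 0 ≤ x.2 := (norm_nonneg _).trans hx

theorem Causal.add {x y : F × ℝ} (hx : Causal x) (hy : Causal y) : Causal (x + y) :=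
  (norm_add_le _ _).trans (add_le_add hx hy)

theorem Causal.smul {x : F × ℝ} (hx : Causal x) {a : ℝ} (ha : 0 ≤ a) : Causal (a • x) := by
  unfold Causal
  rw [Prod.smul_fst, Prod.smul_snd, norm_smul, Real.norm_of_nonneg ha, smul_eq_mul]
  exact mul_le_mul_of_nonneg_left hx ha

theorem causal_zero : Causal (0 : F × ℝ) := by simp [Causal]

theorem causal_sum {ι : Type*} {s : Finset ι} {x : ι → F × ℝ} (hx : ∀ i ∈ s, Causal (x i)) :
    Causal (∑ i ∈ s, x i) := by
  classical
  induction s using Finset.induction_on with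
  | empty => simpa using causal_zero
  | insert a s ha ih =>
    rw [Finset.sum_insert ha]
    exact (hx a (Finset.mem_insert_self a s)).add
      (ih fun i hi => hx i (Finset.mem_insert_of_mem hi))

theorem lq_comm (x y : F × ℝ) : lq x y = lq y x := by
  unfold lq
  rw [real_inner_comm]
  ring

theorem lq_add_left (x y z : F × ℝ) : lq (x + y) z = lq x z + lq y z := by
  unfold lq
  simp only [Prod.fst_add, Prod.snd_add, inner_add_left]
  ring

theorem lq_add_right (x y z : F × ℝ) : lq x (y + z) = lq x y + lq x z := by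
  rw [lq_comm, lq_add_left, lq_comm y, lq_comm z]

theorem lq_smul_left (a : ℝ) (x y : F × ℝ) : lq (a • x) y = a * lq x y := by
  unfold lq
  simp only [Prod.smul_fst, Prod.smul_snd, smul_eq_mul, real_inner_smul_left]
  ring

theorem lq_smul_right (a : ℝ) (x y : F × ℝ) : lq x (a • y) = a * lq x y := by
  rw [lq_comm, lq_smul_left, lq_comm]

theorem lq_sum_left {ι : Type*} (s : Finset ι) (x : ι → F × ℝ) (y : F × ℝ) :
    lq (∑ i ∈ s, x i) y = ∑ i ∈ s, lq (x i) y := by
  classical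
  induction s using Finset.induction_on with
  | empty => simp [lq]
  | insert a s ha ih => rw [Finset.sum_insert ha, Finset.sum_insert ha, lq_add_left, ih]

theorem lq_sum_right {ι : Type*} (s : Finset ι) (x : F × ℝ) (y : ι → F × ℝ) :
    lq x (∑ i ∈ s, y i) = ∑ i ∈ s, lq x (y i) := by
  rw [lq_comm, lq_sum_left]
  exact Finset.sum_congr rfl fun i _ => lq_comm _ _

theorem lq_self (x : F × ℝ) : lq x x = x.2 ^ 2 - ‖x.1‖ ^ 2 := by
  unfold lq
  rw [real_inner_self_eq_norm_sq]
  ring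

theorem lq_self_of_null {x : F × ℝ} (hx : ‖x.1‖ = x.2) : lq x x = 0 := by
  rw [lq_self, hx, sub_self]

theorem lq_self_nonneg {x : F × ℝ} (hx : Causal x) : 0 ≤ lq x x := by
  rw [lq_self]
  have h := hx
  unfold Causal at h
  have h0 := norm_nonneg x.1
  nlinarith

theorem lq_nonneg {x y : F × ℝ} (hx : Causal x) (hy : Causal y) : 0 ≤ lq x y := by
  unfold lq
  have h1 : ⟪x.1, y.1⟫_ℝ ≤ ‖x.1‖ * ‖y.1‖ := real_inner_le_norm _ _
  have h2 : ‖x.1‖ * ‖y.1‖ ≤ x.2 * y.2 :=
    mul_le_mul hx hy (norm_nonneg _) hx.nonneg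
  linarith

/-- Two linearly independent causal vectors have positive product. -/
theorem lq_pos {x y : F × ℝ} (hx : Causal x) (hy : Causal y) (hx0 : x ≠ 0)
    (h : ∀ a : ℝ, y ≠ a • x) : 0 < lq x y := by
  have hx2 : 0 < x.2 := by
    rcases hx.nonneg.lt_or_eq with h1 | h1
    · exact h1
    · exfalso
      apply hx0
      have h3 : ‖x.1‖ = 0 := le_antisymm (by have := hx; unfold Causal at this; linarith)
        (norm_nonneg _)
      exact Prod.ext (norm_eq_zero.1 h3) h1.symm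
  by_contra hcon
  push Not at hcon
  have h1 : ⟪x.1, y.1⟫_ℝ ≤ ‖x.1‖ * ‖y.1‖ := real_inner_le_norm _ _
  have h2 : ‖x.1‖ * ‖y.1‖ ≤ ‖x.1‖ * y.2 := mul_le_mul_of_nonneg_left hy (norm_nonneg _)
  have h3 : ‖x.1‖ * y.2 ≤ x.2 * y.2 := mul_le_mul_of_nonneg_right hx hy.nonneg
  unfold lq at hcon
  have e1 : ⟪x.1, y.1⟫_ℝ = ‖x.1‖ * ‖y.1‖ := by linarith
  have e3 : ‖x.1‖ * y.2 = x.2 * y.2 := by linarith
  have e2 : ‖x.1‖ * ‖y.1‖ = ‖x.1‖ * y.2 := by linarith
  rcases hy.nonneg.lt_or_eq with hy2 | hy2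
  · have hxn : ‖x.1‖ = x.2 := mul_right_cancel₀ hy2.ne' e3
    have hyn : ‖y.1‖ = y.2 := by
      have : ‖x.1‖ ≠ 0 := by rw [hxn]; exact hx2.ne'
      exact mul_left_cancel₀ this e2
    have h4 := (inner_eq_norm_mul_iff_real).1 e1
    rw [hxn, hyn] at h4
    -- h4 : y.2 • x.1 = x.2 • y.1
    apply h (y.2 / x.2)
    refine Prod.ext ?_ ?_
    · rw [Prod.smul_fst]
      have h5 : y.1 = (1 / x.2) • (x.2 • y.1) := by
        rw [smul_smul, one_div_mul_cancel hx2.ne', one_smul]
      rw [h5, ← h4, smul_smul]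
      congr 1
      ring
    · rw [Prod.smul_snd, smul_eq_mul]
      field_simp
  · apply h 0
    have hy3 : ‖y.1‖ = 0 := le_antisymm (by have := hy; unfold Causal at this; linarith)
      (norm_nonneg _)
    rw [zero_smul]
    exact Prod.ext (norm_eq_zero.1 hy3) hy2.symm

theorem lq_pos_of_linearIndependent {ι : Type*} {U : ι → F × ℝ} (hU : LinearIndependent ℝ U)
    (hc : ∀ i, Causal (U i)) {i j : ι} (hij : i ≠ j) : 0 < lq (U i) (U j) := by
  classical
  refine lq_pos (hc i) (hc j) (hU.ne_zero i) fun a ha => ?_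
  have h1 := (linearIndependent_iff'.1 hU) {i, j} (fun k => if k = j then 1 else -a) ?_ j
    (by simp)
  · simp at h1
  · rw [Finset.sum_pair hij, if_neg hij, if_pos rfl, ha]
    simp

/-- A causal vector with positive square is strictly timelike. -/
theorem norm_lt_of_lq_pos {x : F × ℝ} (hx : Causal x) (h : 0 < lq x x) : ‖x.1‖ < x.2 := by
  rw [lq_self] at h
  rcases (show ‖x.1‖ ≤ x.2 from hx).lt_or_eq with h1 | h1
  · exact h1
  · rw [h1, sub_self] at h
    exact absurd h (lt_irrefl _)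

theorem lq_self_pos_of_lt {x : F × ℝ} (h : ‖x.1‖ < x.2) : 0 < lq x x := by
  rw [lq_self]
  have h0 := norm_nonneg x.1
  nlinarith

/-- A nonnegative combination of causal vectors with two positive coefficients at vectors with
positive product is strictly timelike. -/
theorem norm_lt_of_combination {ι : Type*} [Fintype ι] {U : ι → F × ℝ}
    (hc : ∀ i, Causal (U i)) (L : ι → ℝ) (hL : ∀ i, 0 ≤ L i) {i j : ι} (hi : 0 < L i)
    (hj : 0 < L j) (hij : 0 < lq (U i) (U j)) :
    ‖(∑ k, L k • U k).1‖ < (∑ k, L k • U k).2 := by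
  classical
  have hcs : Causal (∑ k, L k • U k) := causal_sum fun k _ => (hc k).smul (hL k)
  refine norm_lt_of_lq_pos hcs ?_
  rw [lq_sum_left]
  have hterm : ∀ k ∈ Finset.univ, 0 ≤ lq (L k • U k) (∑ k, L k • U k) := fun k _ =>
    lq_nonneg ((hc k).smul (hL k)) hcs
  refine lt_of_lt_of_le ?_ (Finset.single_le_sum hterm (Finset.mem_univ i))
  rw [lq_sum_right]
  have hterm2 : ∀ k ∈ Finset.univ, 0 ≤ lq (L i • U i) (L k • U k) := fun k _ =>
    lq_nonneg ((hc i).smul (hL i)) ((hc k).smul (hL k))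
  refine lt_of_lt_of_le ?_ (Finset.single_le_sum hterm2 (Finset.mem_univ j))
  rw [lq_smul_left, lq_smul_right]
  positivity

/-- A nonzero vector orthogonal to a strictly timelike vector has negative square. -/
theorem lq_self_neg_of_orthogonal {w z : F × ℝ} (hz : ‖z.1‖ < z.2) (hwz : lq w z = 0)
    (hw : w ≠ 0) : lq w w < 0 := by
  have hz2 : 0 < z.2 := (norm_nonneg _).trans_lt hz
  have h1 : w.2 * z.2 = ⟪w.1, z.1⟫_ℝ := by
    unfold lq at hwz
    linarith
  have h2 : |w.2| * z.2 ≤ ‖w.1‖ * ‖z.1‖ := by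
    have : |w.2| * z.2 = |⟪w.1, z.1⟫_ℝ| := by rw [← h1, abs_mul, abs_of_pos hz2]
    rw [this]
    exact abs_real_inner_le_norm _ _
  rw [lq_self]
  rcases (norm_nonneg w.1).lt_or_eq with h3 | h3
  · have h4 : ‖w.1‖ * ‖z.1‖ < ‖w.1‖ * z.2 := mul_lt_mul_of_pos_left hz h3
    have h5 : |w.2| < ‖w.1‖ := by
      by_contra hcon
      push Not at hcon
      have : ‖w.1‖ * z.2 ≤ |w.2| * z.2 := mul_le_mul_of_nonneg_right hcon hz2.le
      linarith
    have h6 : w.2 ^ 2 < ‖w.1‖ ^ 2 := by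
      rw [← sq_abs]
      exact pow_lt_pow_left₀ h5 (abs_nonneg _) two_ne_zero
    linarith
  · exfalso
    apply hw
    have h4 : w.2 = 0 := by
      rw [← h3, zero_mul] at h2
      have h5 : |w.2| ≤ 0 := by
        by_contra hcon
        push Not at hcon
        have : 0 < |w.2| * z.2 := mul_pos hcon hz2
        linarith
      exact abs_eq_zero.1 (le_antisymm h5 (abs_nonneg _))
    exact Prod.ext (norm_eq_zero.1 h3.symm) h4

end Pool.Agent.Work.MP_1f68be_co
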