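import Pool.Agent.Work.MP_1f68be_co.Poly

/-!
# MP_1f68be_co: the explicit Kleetope is simplicial
-/

namespace Pool.Agent.Work.MP_1f68be_co

variable {d n : ℕ}

theorem sum_smul_single (a : Fin (d + 1) → ℝ) :
    ∑ k, a k • (Pi.single k 1 : Fin (d + 1) → ℝ) = a := by
  funext m
  rw [Finset.sum_apply, Finset.sum_eq_single m]
  · simp
  · intro b _ hb
    simp [hb.symm]
  · intro h
    exact absurd (Finset.mem_univ _) h

/-- The vectors `X w k` are a basis, and `C w` gives the coordinates. -/
theorem sum_C_smul_X (w : Word d) (v : Fin (d + 1) → ℝ) : ∑ k, C w v k • X w k = v := by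
  apply C_injective w
  rw [C_sum]
  have h : ∀ k ∈ (Finset.univ : Finset (Fin (d + 1))),
      C w (C w v k • X w k) = C w v k • (Pi.single k 1 : Fin (d + 1) → ℝ) := by
    intro k _
    rw [C_smul, C_X]
  rw [Finset.sum_congr rfl h, sum_smul_single]

/-- The value of a linear form in the coordinates of a node. -/
theorem psi_eq (c : Fin (d + 1) → ℝ) (w : Word d) (v : Fin (d + 1) → ℝ) :
    ∑ k, c k * v k = ∑ k, C w v k * ∑ m, c m * X w k m := by
  have h1 : ∀ m, v m = ∑ k, C w v k * X w k m := by
    intro m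
    conv_lhs => rw [← sum_C_smul_X w v]
    rw [Finset.sum_apply]
    rfl
  calc ∑ m, c m * v m = ∑ m, ∑ k, c m * (C w v k * X w k m) := by
        refine Finset.sum_congr rfl fun m _ => ?_
        conv_lhs => rw [h1 m]
        rw [Finset.mul_sum]
    _ = ∑ k, ∑ m, c m * (C w v k * X w k m) := Finset.sum_comm
    _ = ∑ k, C w v k * ∑ m, c m * X w k m := by
        refine Finset.sum_congr rfl fun k _ => ?_
        rw [Finset.mul_sum]
        exact Finset.sum_congr rfl fun m _ => by ring

/-- If the linear form with values `a` vanishes at a point with direction `i`, then `a i`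
dominates. -/
theorem dominate {v a : Fin (d + 1) → ℝ} {i : Fin (d + 1)} (h : NegAt v i) (ha : ∀ k, 0 ≤ a k)
    (h0 : ∑ k, v k * a k = 0) : 2 * ∑ k ∈ Finset.univ.erase i, a k ≤ a i := by
  obtain ⟨h1, h2⟩ := h
  rw [← Finset.add_sum_erase _ _ (Finset.mem_univ i)] at h0
  have h3 : ∑ k ∈ Finset.univ.erase i, (-2 * v i) * a k
      ≤ ∑ k ∈ Finset.univ.erase i, v k * a k :=
    Finset.sum_le_sum fun k hk =>
      mul_le_mul_of_nonneg_right (h2 k (Finset.ne_of_mem_erase hk)) (ha k)
  rw [← Finset.mul_sum] at h3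
  have h4 : (-v i) * (2 * ∑ k ∈ Finset.univ.erase i, a k) ≤ (-v i) * a i := by linarith
  exact le_of_mul_le_mul_left h4 (by linarith)

/-- The points of a node are affinely independent. -/
theorem affineIndependent_node (hd : 2 ≤ d) {w : Word d} (hw : Red w) (hn : w.length ≤ n) :
    AffineIndependent ℝ (fun k => pt (T w k)) := by
  classical
  rw [affineIndependent_iff]
  intro s u hu0 hu e he
  have hS : ∀ k, 0 < ∑ m, vec (T w k) m := fun k => sum_vec_pos hd (isLab_T hw hn k)
  set mu : Fin (d + 1) → ℝ := fun k => if k ∈ s then u k / ∑ m, vec (T w k) m else 0 with hmu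
  have hcoord : ∀ m : Fin d, ∑ k, mu k * vec (T w k) m.castSucc = 0 := by
    intro m
    have h1 : (∑ e ∈ s, u e • pt (T w e)) m = 0 := by rw [hu]; rfl
    have h2 : (∑ e ∈ s, u e • pt (T w e)) m
        = ∑ e ∈ s, u e * (vec (T w e) m.castSucc / ∑ j, vec (T w e) j) := by
      rw [WithLp.ofLp_sum, Finset.sum_apply]
      rfl
    rw [h2] at h1
    rw [← h1]
    rw [← Finset.sum_filter_add_sum_filter_not Finset.univ (fun k => k ∈ s)]
    have h3 : ∑ k ∈ Finset.univ.filter (fun k => k ∉ s), mu k * vec (T w k) m.castSucc = 0 := by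
      refine Finset.sum_eq_zero fun k hk => ?_
      have : k ∉ s := (Finset.mem_filter.1 hk).2
      simp [hmu, this]
    rw [h3, add_zero]
    have h4 : Finset.univ.filter (fun k => k ∈ s) = s := by
      ext k
      simp
    rw [h4]
    refine Finset.sum_congr rfl fun k hk => ?_
    simp only [hmu, hk, if_true]
    ring
  have htot : ∑ k, mu k * ∑ m, vec (T w k) m = 0 := by
    rw [← hu0]
    rw [← Finset.sum_filter_add_sum_filter_not Finset.univ (fun k => k ∈ s)]
    have h3 : ∑ k ∈ Finset.univ.filter (fun k => k ∉ s), mu k * ∑ m, vec (T w k) m = 0 := by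
      refine Finset.sum_eq_zero fun k hk => ?_
      have : k ∉ s := (Finset.mem_filter.1 hk).2
      simp [hmu, this]
    rw [h3, add_zero]
    have h4 : Finset.univ.filter (fun k => k ∈ s) = s := by
      ext k
      simp
    rw [h4]
    refine Finset.sum_congr rfl fun k hk => ?_
    simp only [hmu, hk, if_true]
    exact div_mul_cancel₀ _ (hS k).ne'
  have hlast : ∑ k, mu k * vec (T w k) (Fin.last d) = 0 := by
    have h1 : ∀ k, mu k * ∑ m, vec (T w k) m
        = (∑ m : Fin d, mu k * vec (T w k) m.castSucc) + mu k * vec (T w k) (Fin.last d) := by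
      intro k
      rw [Fin.sum_univ_castSucc, mul_add, Finset.mul_sum]
    rw [Finset.sum_congr rfl fun k _ => h1 k, Finset.sum_add_distrib, Finset.sum_comm,
      Finset.sum_eq_zero fun m _ => hcoord m, zero_add] at htot
    exact htot
  have hvec : ∑ k, mu k • X w k = 0 := by
    funext m
    rw [Finset.sum_apply]
    have h1 : ∑ k, (mu k • X w k) m = ∑ k, mu k * vec (T w k) m := by
      refine Finset.sum_congr rfl fun k _ => ?_
      rw [vec_T]
      rfl
    rw [h1]
    refine Fin.lastCases ?_ (fun m => ?_) m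
    · exact hlast
    · exact hcoord m
  have hC := congrArg (C w) hvec
  rw [C_sum, C_zero] at hC
  have h5 : ∀ k ∈ (Finset.univ : Finset (Fin (d + 1))),
      C w (mu k • X w k) = mu k • (Pi.single k 1 : Fin (d + 1) → ℝ) := by
    intro k _
    rw [C_smul, C_X]
  rw [Finset.sum_congr rfl h5, sum_smul_single] at hC
  have h6 : mu e = 0 := congrFun hC e
  simp only [hmu, he, if_true] at h6
  rcases div_eq_zero_iff.1 h6 with h7 | h7
  · exact h7
  · exact absurd h7 (hS e).ne'

theorem kleetope_isSimplicial (hd : 2 ≤ d) (n : ℕ) : IsSimplicial (kleetope d n) := by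
  classical
  rintro A ⟨l, hl⟩ hne
  by_cases hA : A.Nonempty
  swap
  · rw [Set.not_nonempty_iff_eq_empty] at hA
    subst hA
    exact affineIndependent_of_subsingleton ℝ _
  obtain ⟨x₀, hx₀⟩ := hA
  have hx₀' := (hl x₀).1 hx₀
  have hmem : ∀ y : Lab d, IsLab n y → pt y ∈ (kleetope d n : Set (E d)) := fun y hy =>
    Finset.mem_coe.2 (mem_kleetope.2 ⟨y, hy, rfl⟩)
  have hle : ∀ y : Lab d, IsLab n y → l (pt y) ≤ l x₀ := fun y hy => hx₀'.2 _ (hmem y hy)
  have hAiff : ∀ y : Lab d, IsLab n y → (pt y ∈ A ↔ l (pt y) = l x₀) := by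
    intro y hy
    constructor
    · intro h
      exact le_antisymm (hle y hy) (((hl _).1 h).2 _ hx₀'.1)
    · intro h
      refine (hl _).2 ⟨hmem y hy, fun z hz => ?_⟩
      rw [h]
      exact hx₀'.2 z hz
  obtain ⟨c, hc⟩ := exists_coeff l (l x₀)
  have hpsi : ∀ y : Lab d, IsLab n y →
      0 ≤ ∑ k, c k * vec y k ∧ (pt y ∈ A ↔ ∑ k, c k * vec y k = 0) := by
    intro y hy
    have hs := sum_vec_pos hd hy
    have h1 := hc y hs.ne'
    have h2 : ∑ k, c k * vec y k = (l x₀ - l (pt y)) * ∑ k, vec y k := by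
      rw [h1, div_mul_cancel₀ _ hs.ne']
    constructor
    · rw [h2]
      exact mul_nonneg (sub_nonneg.2 (hle y hy)) hs.le
    · rw [hAiff y hy, h2]
      constructor
      · intro h
        rw [h, sub_self, zero_mul]
      · intro h
        rcases mul_eq_zero.1 h with h3 | h3
        · linarith
        · exact absurd h3 hs.ne'
  obtain ⟨y₁, hy₁, hy₁A⟩ : ∃ y : Lab d, IsLab n y ∧ pt y ∉ A := by
    by_contra hcon
    push Not at hcon
    apply hne
    refine Set.Subset.antisymm (fun x hx => ((hl x).1 hx).1) ?_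
    intro x hx
    obtain ⟨y, hy, rfl⟩ := mem_kleetope.1 (Finset.mem_coe.1 hx)
    exact hcon y hy
  -- the values at a node
  have hval : ∀ w : Word d, Red w → w.length ≤ n → ∀ k, 0 ≤ ∑ m, c m * X w k m := by
    intro w hw hn k
    have := (hpsi _ (isLab_T hw hn k)).1
    rwa [vec_T] at this
  have hnz : ∀ w : Word d, ¬ ∀ k, ∑ m, c m * X w k m = 0 := by
    intro w h
    apply hy₁A
    rw [(hpsi y₁ hy₁).2, psi_eq c w]
    exact Finset.sum_eq_zero fun k _ => by rw [h k, mul_zero]
  have hdom : ∀ w : Word d, Red w → w.length ≤ n → ∀ y : Lab d, IsLab n y → pt y ∈ A →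
      ∀ i, NegAt (C w (vec y)) i →
      2 * ∑ k ∈ Finset.univ.erase i, ∑ m, c m * X w k m ≤ ∑ m, c m * X w i m := by
    intro w hw hn y hy hyA i hi
    have h0 := (hpsi y hy).2.1 hyA
    rw [psi_eq c w] at h0
    exact dominate hi (hval w hw hn) h0
  have hpos : ∀ w : Word d, Red w → w.length ≤ n → ∀ y : Lab d, IsLab n y → pt y ∈ A →
      ∀ i, NegAt (C w (vec y)) i → 0 < ∑ m, c m * X w i m := by
    intro w hw hn y hy hyA i hi
    have h1 := hdom w hw hn y hy hyA i hi
    rcases (hval w hw hn i).lt_or_eq with h2 | h2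
    · exact h2
    · exfalso
      rw [← h2] at h1
      have h3 : ∑ k ∈ Finset.univ.erase i, ∑ m, c m * X w k m = 0 :=
        le_antisymm (by linarith) (Finset.sum_nonneg fun k _ => hval w hw hn k)
      rw [Finset.sum_eq_zero_iff_of_nonneg fun k _ => hval w hw hn k] at h3
      apply hnz w
      intro k
      by_cases hk : k = i
      · rw [hk]; exact h2.symm
      · exact h3 k (Finset.mem_erase.2 ⟨hk, Finset.mem_univ k⟩)
  have huniq : ∀ w : Word d, Red w → w.length ≤ n → ∀ y y' : Lab d, IsLab n y → IsLab n y' →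
      pt y ∈ A → pt y' ∈ A → ∀ i j, NegAt (C w (vec y)) i → NegAt (C w (vec y')) j → i = j := by
    intro w hw hn y y' hy hy' hyA hy'A i j hi hj
    by_contra hij
    have h1 := hdom w hw hn y hy hyA i hi
    have h2 := hdom w hw hn y' hy' hy'A j hj
    have h3 : ∑ m, c m * X w j m ≤ ∑ k ∈ Finset.univ.erase i, ∑ m, c m * X w k m :=
      Finset.single_le_sum (f := fun k => ∑ m, c m * X w k m) (fun k _ => hval w hw hn k)
        (Finset.mem_erase.2 ⟨Ne.symm hij, Finset.mem_univ j⟩)
    have h4 : ∑ m, c m * X w i m ≤ ∑ k ∈ Finset.univ.erase j, ∑ m, c m * X w k m :=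
      Finset.single_le_sum (f := fun k => ∑ m, c m * X w k m) (fun k _ => hval w hw hn k)
        (Finset.mem_erase.2 ⟨hij, Finset.mem_univ i⟩)
    have h5 := hpos w hw hn y hy hyA i hi
    linarith
  -- all of `A` lies in one node
  have key : ∀ (m : ℕ) (w : Word d), n - w.length = m → Red w → w.length ≤ n →
      (∀ y : Lab d, IsLab n y → pt y ∈ A → (∀ k, T w k ≠ y) → ∃ u, y = Sum.inr u ∧ w <:+ u) →
      ∃ w' : Word d, Red w' ∧ w'.length ≤ n ∧
        ∀ y : Lab d, IsLab n y → pt y ∈ A → ∃ k, T w' k = y := by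
    intro m
    induction m with
    | zero =>
      intro w hm hw hn hP
      refine ⟨w, hw, hn, fun y hy hyA => ?_⟩
      by_contra hcon
      push Not at hcon
      obtain ⟨u, rfl, hs⟩ := hP y hy hyA hcon
      have h1 : w.length = u.length := le_antisymm hs.length_le (by have := hy.2.2; omega)
      have h2 : w = u := hs.eq_of_length h1
      subst h2
      cases w with
      | nil => exact hy.1 rfl
      | cons j w => exact hcon j (T_head j w)
    | succ m ih =>
      intro w hm hw hn hP
      by_cases hall : ∀ y : Lab d, IsLab n y → pt y ∈ A → ∃ k, T w k = y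
      · exact ⟨w, hw, hn, hall⟩
      · push Not at hall
        obtain ⟨y₀, hy₀, hy₀A, hy₀T⟩ := hall
        have hext : ∀ y : Lab d, IsLab n y → pt y ∈ A → (∀ k, T w k ≠ y) →
            ∃ u i, y = Sum.inr u ∧ (i :: w) <:+ u ∧ NegAt (C w (vec y)) i := by
          intro y hy hyA hyT
          obtain ⟨u, rfl, hs⟩ := hP y hy hyA hyT
          have hne' : w ≠ u := by
            rintro rfl
            cases w with
            | nil => exact hy.1 rfl
            | cons j w => exact hyT j (T_head j w)
          obtain ⟨i, hi⟩ := exists_cons_suffix hs hne'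
          exact ⟨u, i, rfl, hi, negAt_down hi hy.2.1⟩
        obtain ⟨u₀, i, rfl, hi, hneg⟩ := hext y₀ hy₀ hy₀A hy₀T
        have hred : Red (i :: w) := by
          have := hy₀.2.1
          unfold Red at this ⊢
          exact this.suffix hi
        have hlen : (i :: w).length ≤ n := hi.length_le.trans hy₀.2.2
        have hTi : pt (T w i) ∉ A := by
          intro h
          have h1 := ((hpsi _ (isLab_T hw hn i)).2).1 h
          rw [vec_T] at h1
          have h2 := hpos w hw hn _ hy₀ hy₀A i hneg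
          rw [h1] at h2
          exact lt_irrefl _ h2
        refine ih (i :: w) (by simp at hlen ⊢; omega) hred hlen ?_
        intro y hy hyA hyT
        have hyT' : ∀ k, T w k ≠ y := by
          rintro k rfl
          by_cases hk : k = i
          · subst hk
            exact hTi hyA
          · exact hyT k (T_of_ne w hk)
        obtain ⟨u, j, rfl, hj, hneg'⟩ := hext y hy hyA hyT'
        have := huniq w hw hn _ _ hy₀ hy hy₀A hyA i j hneg hneg'
        subst this
        exact ⟨u, rfl, hj⟩
  obtain ⟨w, hw, hn, hcov⟩ := key n [] (by simp) (by simp [Red]) (by simp) (by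
    intro y hy hyA hyT
    cases y with
    | inl k => exact absurd rfl (hyT k)
    | inr u => exact ⟨u, rfl, List.nil_suffix⟩)
  have h1 := (affineIndependent_node hd hw hn).range
  refine h1.mono ?_
  intro x hx
  obtain ⟨y, hy, rfl⟩ := mem_kleetope.1 (Finset.mem_coe.1 ((hl x).1 hx).1)
  obtain ⟨k, hk⟩ := hcov y hy hx
  exact ⟨k, by dsimp only; rw [hk]⟩

end Pool.Agent.Work.MP_1f68be_co
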