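import Pool.Agent.Work.MP_1f68be_co.Real
import Pool.Agent.Work.MP_1f68be_co.Count
import Pool.Agent.Work.MP_1f68be_co.Simp
import Pool.Agent.Work.MP_1f68be_co.Card
import Pool.Agent.Work.MP_1f68be_co.Key

/-!
# MP_1f68be_co: the bound for the number of vertices on a sphere
-/

open scoped InnerProductSpace

namespace Pool.Agent.Work.MP_1f68be_co

variable {d n : ℕ}

theorem mem_kleetope_of {y : Lab d} (hy : IsLab n y) : pt y ∈ kleetope d n :=
  mem_kleetope.2 ⟨y, hy, rfl⟩

theorem ridgeProp_of_combEquiv (hd : 3 ≤ d) {W : Finset (E d)} {f : E d → E d}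
    (hf : CombEquiv (kleetope d n) W f) : RidgeProp n (fun y => f (pt y)) := by
  intro w hw hn i j hij
  have h1 := ridge_isFace (n := n) (by omega : 2 ≤ d) hw hn hij
  have hsub : pt '' {y | ∃ k, k ≠ i ∧ k ≠ j ∧ T w k = y} ⊆ (kleetope d n : Set (E d)) := by
    rintro _ ⟨y, ⟨k, _, _, rfl⟩, rfl⟩
    exact mem_kleetope_of (isLab_T hw hn k)
  obtain ⟨l, hl⟩ := (hf.2 _ hsub).1 h1
  -- a third index
  obtain ⟨k0, hk0⟩ : ∃ k : Fin (d + 1), k ∉ ({i, j} : Finset (Fin (d + 1))) := by
    by_contra hcon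
    push Not at hcon
    have h2 : (Finset.univ : Finset (Fin (d + 1))) ⊆ {i, j} := fun k _ => hcon k
    have h3 := Finset.card_le_card h2
    have h4 : ({i, j} : Finset (Fin (d + 1))).card ≤ 2 := Finset.card_le_two
    rw [Finset.card_univ, Fintype.card_fin] at h3
    omega
  simp only [Finset.mem_insert, Finset.mem_singleton, not_or] at hk0
  have hmem : ∀ k, k ≠ i → k ≠ j →
      f (pt (T w k)) ∈ f '' (pt '' {y | ∃ k, k ≠ i ∧ k ≠ j ∧ T w k = y}) := fun k h1 h2 =>
    ⟨_, ⟨_, ⟨k, h1, h2, rfl⟩, rfl⟩, rfl⟩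
  refine ⟨l, l (f (pt (T w k0))), ?_, ?_⟩
  · intro k hki hkj
    have a1 := (hl _).1 (hmem k hki hkj)
    have a2 := (hl _).1 (hmem k0 hk0.1 hk0.2)
    exact le_antisymm (a2.2 _ a1.1) (a1.2 _ a2.1)
  · intro y hy hyw
    have a2 := (hl _).1 (hmem k0 hk0.1 hk0.2)
    have hyW : f (pt y) ∈ (W : Set (E d)) := hf.1.mapsTo (mem_kleetope_of hy)
    rcases (a2.2 _ hyW).lt_or_eq with h | h
    · exact h
    · exfalso
      have h5 : f (pt y) ∈ f '' (pt '' {y | ∃ k, k ≠ i ∧ k ≠ j ∧ T w k = y}) := by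
        rw [hl]
        refine ⟨hyW, fun v hv => ?_⟩
        rw [h]
        exact a2.2 v hv
      obtain ⟨_, ⟨y', ⟨k, hk1, hk2, hk3⟩, rfl⟩, h6⟩ := h5
      have hy' : IsLab n y' := hk3 ▸ isLab_T hw hn k
      have h7 : pt y' = pt y := hf.1.injOn (mem_kleetope_of hy') (mem_kleetope_of hy) h6
      have h8 : y' = y := pt_injOn (by omega : 2 ≤ d) hy' hy h7
      exact hyw k hk1 hk2 (hk3.trans h8)

open Classical in
/-- At most `d + 1 + 3 * 2 ^ n` vertices lie on the sphere. -/
theorem main_bound (hd : 3 ≤ d) {W : Finset (E d)} {f : E d → E d}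
    (hf : CombEquiv (kleetope d n) W f) {c : E d} {r : ℝ} (hr : 0 < r)
    (hball : ∀ w ∈ W, dist w c ≤ r) :
    (W.filter fun w => dist w c = r).card ≤ (d + 1) + 3 * 2 ^ n := by
  set g : Lab d → E d := fun y => f (pt y) with hg
  have hR : RidgeProp n g := ridgeProp_of_combEquiv hd hf
  have hgW : ∀ {y}, IsLab n y → g y ∈ W := fun hy => hf.1.mapsTo (mem_kleetope_of hy)
  -- the set of words whose vertex is on the sphere
  have hfin : {u : Word d | (u ≠ [] ∧ Red u ∧ u.length ≤ n) ∧ dist (g (Sum.inr u)) c = r}.Finite :=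
    (List.finite_length_le _ n).subset fun u hu => hu.1.2.2
  set S : Finset (Word d) := hfin.toFinset with hS
  have hSmem : ∀ u, u ∈ S ↔ (u ≠ [] ∧ Red u ∧ u.length ≤ n) ∧ dist (g (Sum.inr u)) c = r := by
    intro u
    rw [hS, Set.Finite.mem_toFinset]
    rfl
  have hcount : S.card ≤ 3 * 2 ^ n := by
    refine count_words S (fun u hu => ((hSmem u).1 hu).1) ?_
    intro w hw hwn J hJ
    by_contra hcon
    push Not at hcon
    -- every direction in J carries a vertex on the sphere
    have hdir : ∀ i ∈ J, ∃ y : Lab d, IsLab n y ∧ (∀ k, T w k ≠ y) ∧ dist (g y) c = r ∧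
        Beyond (fun k => g (T w k)) (g y) i := by
      intro i hi
      rcases hJ i hi with ⟨u, hu, hs⟩ | ⟨w', rfl, u, hu, hlen, hs⟩
      · have hu' := (hSmem u).1 hu
        have hlen : w.length < u.length := by
          have := hs.length_le
          rw [List.length_cons] at this
          omega
        exact ⟨Sum.inr u, hu'.1, T_ne_of_length hlen, hu'.2,
          beyond_down hd hR hs hu'.1.2.1 hu'.1.2.2⟩
      · have hu' := (hSmem u).1 hu
        exact ⟨Sum.inr u, hu'.1, T_ne_of_length hlen, hu'.2,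
          beyond_up hd hR hw hu'.1.2.1 hu'.1.2.2 hlen hs⟩
    obtain ⟨J', hJ'J, hJ'c⟩ := Finset.exists_subset_card_eq (show 4 ≤ J.card by omega)
    let e : Fin 4 ≃ J' := (Finset.equivFinOfCardEq hJ'c).symm
    let I : Fin 4 → Fin (d + 1) := fun a => (e a : Fin (d + 1))
    have hI : Function.Injective I := fun a b h => e.injective (Subtype.ext h)
    have hIJ : ∀ a, I a ∈ J := fun a => hJ'J (e a).2
    choose y hy1 hy2 hy3 hy4 using fun a => hdir (I a) (hIJ a)
    choose L hL1 hL2 hL3 hL4 using hy4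
    refine key_lemma (fun k => g (T w k)) (real_indep hd hR hw hwn.le) c r hr ?_ I hI L hL1
      hL3 hL4 ?_ ?_
    · intro k
      rw [← dist_eq_norm]
      exact hball _ (hgW (isLab_T hw hwn.le k))
    · intro a
      rw [hL2 a, ← dist_eq_norm]
      exact hy3 a
    · intro a b hab
      exact ridge_ineq hR hw hwn.le (hy1 a) (hy1 b) (hy2 a) (hy2 b) (fun h => hab (hI h))
        (hL1 a) (hL2 a) (hL3 a) (hL4 a) (hL1 b) (hL2 b) (hL3 b) (hL4 b)
  have hsub : (W.filter fun w => dist w c = r) ⊆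
      (Finset.univ.image fun k : Fin (d + 1) => g (Sum.inl k)) ∪
        S.image fun u => g (Sum.inr u) := by
    intro v hv
    rw [Finset.mem_filter] at hv
    obtain ⟨x, hx, rfl⟩ := hf.1.surjOn hv.1
    have hx' : x ∈ kleetope d n := hx
    unfold kleetope at hx'
    rw [Finset.mem_image] at hx'
    obtain ⟨y, hy, rfl⟩ := hx'
    have hy' : IsLab n y := by simpa using hy
    rw [Finset.mem_union]
    rcases y with k | u
    · exact Or.inl (Finset.mem_image.2 ⟨k, Finset.mem_univ _, rfl⟩)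
    · exact Or.inr (Finset.mem_image.2 ⟨u, (hSmem u).2 ⟨hy', hv.2⟩, rfl⟩)
  calc (W.filter fun w => dist w c = r).card
      ≤ ((Finset.univ.image fun k : Fin (d + 1) => g (Sum.inl k)) ∪
          S.image fun u => g (Sum.inr u)).card := Finset.card_le_card hsub
    _ ≤ (Finset.univ.image fun k : Fin (d + 1) => g (Sum.inl k)).card +
          (S.image fun u => g (Sum.inr u)).card := Finset.card_union_le _ _
    _ ≤ (d + 1) + 3 * 2 ^ n := by
      refine add_le_add ?_ (Finset.card_image_le.trans hcount)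
      refine Finset.card_image_le.trans ?_
      rw [Finset.card_univ, Fintype.card_fin]

theorem s0_kleetope_le (hd : 3 ≤ d) (n : ℕ) : s0 (kleetope d n) ≤ (d + 1) + 3 * 2 ^ n := by
  classical
  unfold s0
  refine csSup_le' ?_
  rintro s ⟨W, f, _, hf, c, r, hr, hball, rfl⟩
  exact main_bound hd hf hr hball

theorem card_kleetope_ge (hd : 3 ≤ d) (n : ℕ) : d ^ n ≤ (kleetope d n).card := by
  classical
  unfold kleetope
  rw [Finset.card_image_of_injOn]
  · exact pow_le_card (by omega) n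
  · have := pt_injOn (d := d) (n := n) (by omega)
    intro x hx y hy hxy
    refine this ?_ ?_ hxy
    · simpa using hx
    · simpa using hy

end Pool.Agent.Work.MP_1f68be_co
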