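import Pool.Agent.Work.MP_1f68be_co.Lor
import Pool.Agent.Work.MP_1f68be_co.Arctan

/-!
# MP_1f68be_co: four independent null vectors
-/

open scoped InnerProductSpace

namespace Pool.Agent.Work.MP_1f68be_co

variable {F : Type*} [NormedAddCommGroup F] [InnerProductSpace ℝ F]

theorem signed_ne_zero {U : Fin 4 → F × ℝ} (hU : LinearIndependent ℝ U) (g : Fin 4 → ℝ)
    (hg : g 0 ≠ 0) : ∑ j, g j • U j ≠ 0 := by
  intro h
  exact hg ((Fintype.linearIndependent_iff.1 hU) g h 0)

/-- triangle inequality for the products of null vectors -/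
theorem signed_neg {U : Fin 4 → F × ℝ} (hU : LinearIndependent ℝ U)
    (hc : ∀ i, ‖(U i).1‖ = (U i).2) {A B C : ℝ}
    (h01 : lq (U 0) (U 1) = A) (h23 : lq (U 2) (U 3) = A)
    (h02 : lq (U 0) (U 2) = B) (h13 : lq (U 1) (U 3) = B)
    (h03 : lq (U 0) (U 3) = C) (h12 : lq (U 1) (U 2) = C)
    (x y t : ℝ) (hx : x ^ 2 = 1) (hy : y ^ 2 = 1) (ht : t ^ 2 = 1)
    (hsum : 1 + x + y + t = 0) (hprod : x * y * t = 1) :
    x * A + y * B + t * C < 0 := by
  have hcc : ∀ i, Causal (U i) := fun i => (hc i).le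
  have hz0 : ∀ i, lq (U i) (U i) = 0 := fun i => lq_self_of_null (hc i)
  have h10 : lq (U 1) (U 0) = A := by rw [lq_comm]; exact h01
  have h32 : lq (U 3) (U 2) = A := by rw [lq_comm]; exact h23
  have h20 : lq (U 2) (U 0) = B := by rw [lq_comm]; exact h02
  have h31 : lq (U 3) (U 1) = B := by rw [lq_comm]; exact h13
  have h30 : lq (U 3) (U 0) = C := by rw [lq_comm]; exact h03
  have h21 : lq (U 2) (U 1) = C := by rw [lq_comm]; exact h12
  have hzt := norm_lt_of_combination hcc (fun _ => (1 : ℝ)) (fun _ => zero_le_one)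
    (i := 0) (j := 1) one_pos one_pos
    (lq_pos_of_linearIndependent hU hcc (by decide))
  set g : Fin 4 → ℝ := ![1, x, y, t] with hg
  have hw0 : ∑ j, g j • U j ≠ 0 := signed_ne_zero hU g (by simp [hg])
  have hwz : lq (∑ j, g j • U j) (∑ k, (1 : ℝ) • U k) = 0 := by

    simp only [Fin.sum_univ_four, lq_add_left, lq_add_right, lq_smul_left, lq_smul_right, hz0, h01, h23, h02,
      h13, h03, h12, h10, h32, h20, h31, h30, h21]
    simp only [hg, Matrix.cons_val_zero, Matrix.cons_val_one, Matrix.cons_val]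
    linear_combination (A + B + C) * hsum
  have hneg := lq_self_neg_of_orthogonal hzt hwz hw0

  simp only [Fin.sum_univ_four, lq_add_left, lq_add_right, lq_smul_left, lq_smul_right, hz0, h01, h23, h02,
      h13, h03, h12, h10, h32, h20, h31, h30, h21] at hneg
  simp only [hg, Matrix.cons_val_zero, Matrix.cons_val_one, Matrix.cons_val] at hneg
  have e1 : y * t = x := by linear_combination x * hprod - y * t * hx
  have e2 : x * t = y := by linear_combination y * hprod - x * t * hy
  have e3 : x * y = t := by linear_combination t * hprod - x * y * ht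
  have e4 : 1 * (1 * 0 + x * A + y * B + t * C) + x * (1 * A + x * 0 + y * C + t * B) +
      y * (1 * B + x * C + y * 0 + t * A) + t * (1 * C + x * B + y * A + t * 0) =
      4 * (x * A + y * B + t * C) := by
    linear_combination (2 * A) * e1 + (2 * B) * e2 + (2 * C) * e3
  rw [e4] at hneg
  linarith

theorem scaled_case (U : Fin 4 → F × ℝ) (hU : LinearIndependent ℝ U)
    (hc : ∀ i, ‖(U i).1‖ = (U i).2) (L : Fin 4 → Fin 4 → ℝ)
    (hneg : ∀ i, L i i < 0) (hpos : ∀ i j, i ≠ j → 0 < L i j)
    (hnull : ∀ i, ‖(∑ j, L i j • U j).1‖ = (∑ j, L i j • U j).2)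
    (hridge : ∀ i j, i ≠ j → L i i * L j j < L i j * L j i) {A B C : ℝ}
    (h01 : lq (U 0) (U 1) = A) (h23 : lq (U 2) (U 3) = A)
    (h02 : lq (U 0) (U 2) = B) (h13 : lq (U 1) (U 3) = B)
    (h03 : lq (U 0) (U 3) = C) (h12 : lq (U 1) (U 2) = C) : False := by
  have hcc : ∀ i, Causal (U i) := fun i => (hc i).le
  have hz0 : ∀ i, lq (U i) (U i) = 0 := fun i => lq_self_of_null (hc i)
  have h10 : lq (U 1) (U 0) = A := by rw [lq_comm]; exact h01
  have h32 : lq (U 3) (U 2) = A := by rw [lq_comm]; exact h23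
  have h20 : lq (U 2) (U 0) = B := by rw [lq_comm]; exact h02
  have h31 : lq (U 3) (U 1) = B := by rw [lq_comm]; exact h13
  have h30 : lq (U 3) (U 0) = C := by rw [lq_comm]; exact h03
  have h21 : lq (U 2) (U 1) = C := by rw [lq_comm]; exact h12
  have hA : 0 < A := by rw [← h01]; exact lq_pos_of_linearIndependent hU hcc (by decide)
  have hB : 0 < B := by rw [← h02]; exact lq_pos_of_linearIndependent hU hcc (by decide)
  have hC : 0 < C := by rw [← h03]; exact lq_pos_of_linearIndependent hU hcc (by decide)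
  have t1 := signed_neg hU hc h01 h23 h02 h13 h03 h12 1 (-1) (-1) (by norm_num) (by norm_num)
    (by norm_num) (by norm_num) (by norm_num)
  have t2 := signed_neg hU hc h01 h23 h02 h13 h03 h12 (-1) 1 (-1) (by norm_num) (by norm_num)
    (by norm_num) (by norm_num) (by norm_num)
  have t3 := signed_neg hU hc h01 h23 h02 h13 h03 h12 (-1) (-1) 1 (by norm_num) (by norm_num)
    (by norm_num) (by norm_num) (by norm_num)
  have hform : ∀ i, A * (L i 0 * L i 1 + L i 2 * L i 3) + B * (L i 0 * L i 2 + L i 1 * L i 3) +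
      C * (L i 0 * L i 3 + L i 1 * L i 2) = 0 := by
    intro i
    have h := lq_self_of_null (hnull i)

    simp only [Fin.sum_univ_four, lq_add_left, lq_add_right, lq_smul_left, lq_smul_right, hz0, h01, h23, h02,
      h13, h03, h12, h10, h32, h20, h31, h30, h21] at h
    linear_combination h / 2
  -- the normalised coefficients
  set m : Fin 4 → Fin 4 → ℝ := fun i j => -(L i j) / L i i with hm
  have hmpos : ∀ i j, i ≠ j → 0 < m i j := fun i j hij =>
    div_pos_of_neg_of_neg (neg_lt_zero.2 (hpos i j hij)) (hneg i)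
  have hmm : ∀ i j, i ≠ j → 1 < m i j * m j i := by
    intro i j hij
    have h1 : m i j * m j i = (L i j * L j i) / (L i i * L j j) := by
      rw [hm]; simp only; rw [div_mul_div_comm]; congr 1; ring
    rw [h1, one_lt_div (mul_pos_of_neg_of_neg (hneg i) (hneg j))]
    exact hridge i j hij
  have hne : ∀ i, L i i ≠ 0 := fun i => (hneg i).ne
  refine klee_arctan A B C hA hB hC (by linarith) (by linarith) (by linarith)
    ![![m 0 1, m 0 2, m 0 3], ![m 1 0, m 1 3, m 1 2], ![m 2 3, m 2 0, m 2 1],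
      ![m 3 2, m 3 1, m 3 0]] ?_ ?_ ?_ ?_ ?_ ?_ ?_ ?_
  · intro i j
    fin_cases i <;> fin_cases j <;> simp <;> exact hmpos _ _ (by decide)
  · intro i
    have n0 := hne 0
    have n1 := hne 1
    have n2 := hne 2
    have n3 := hne 3
    fin_cases i
    · have h := hform 0
      simp [hm]
      field_simp
      linear_combination h
    · have h := hform 1
      simp [hm]
      field_simp
      linear_combination h
    · have h := hform 2
      simp [hm]
      field_simp
      linear_combination h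
    · have h := hform 3
      simp [hm]
      field_simp
      linear_combination h
  · simpa using hmm 0 1 (by decide)
  · simpa using hmm 2 3 (by decide)
  · simpa using hmm 0 2 (by decide)
  · simpa using hmm 1 3 (by decide)
  · simpa using hmm 0 3 (by decide)
  · simpa using hmm 1 2 (by decide)

theorem null_case {F : Type*} [NormedAddCommGroup F] [InnerProductSpace ℝ F]
    (U : Fin 4 → F × ℝ) (hU : LinearIndependent ℝ U)
    (hc : ∀ i, ‖(U i).1‖ = (U i).2) (L : Fin 4 → Fin 4 → ℝ)
    (hneg : ∀ i, L i i < 0) (hpos : ∀ i j, i ≠ j → 0 < L i j)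
    (hnull : ∀ i, ‖(∑ j, L i j • U j).1‖ = (∑ j, L i j • U j).2)
    (hridge : ∀ i j, i ≠ j → L i i * L j j < L i j * L j i) : False := by
  have hcc : ∀ i, Causal (U i) := fun i => (hc i).le
  have hG : ∀ i j, i ≠ j → 0 < lq (U i) (U j) := fun i j hij =>
    lq_pos_of_linearIndependent hU hcc hij
  set a := lq (U 0) (U 1) with ha
  set a' := lq (U 2) (U 3) with ha'
  set b := lq (U 0) (U 2) with hb
  set b' := lq (U 1) (U 3) with hb'
  set c := lq (U 0) (U 3) with hc1
  set c' := lq (U 1) (U 2) with hc'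
  have pa : 0 < a := hG _ _ (by decide)
  have pa' : 0 < a' := hG _ _ (by decide)
  have pb : 0 < b := hG _ _ (by decide)
  have pb' : 0 < b' := hG _ _ (by decide)
  have pc : 0 < c := hG _ _ (by decide)
  have pc' : 0 < c' := hG _ _ (by decide)
  set T : Fin 4 → ℝ := ![a * b * c, a * b' * c', a' * b * c', a' * b' * c] with hT
  have hTpos : ∀ i, 0 < T i := by
    intro i; fin_cases i <;> simp [hT] <;> positivity
  set s : Fin 4 → ℝ := fun i => (Real.sqrt (T i))⁻¹ with hs
  have hspos : ∀ i, 0 < s i := fun i => inv_pos.2 (Real.sqrt_pos.2 (hTpos i))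
  have hs2 : ∀ i, s i ^ 2 = (T i)⁻¹ := fun i => by
    rw [hs]; simp only; rw [inv_pow, Real.sq_sqrt (hTpos i).le]
  set U' : Fin 4 → F × ℝ := fun i => s i • U i with hU'
  have hU'lin : LinearIndependent ℝ U' := hU.units_smul (fun i => Units.mk0 (s i) (hspos i).ne')
  have hU'c : ∀ i, ‖(U' i).1‖ = (U' i).2 := by
    intro i
    rw [hU']
    simp only [Prod.smul_fst, Prod.smul_snd, norm_smul, Real.norm_of_nonneg (hspos i).le, hc i,
      smul_eq_mul]
  have hV : ∀ i, ∑ j, (L i j / s j) • U' j = ∑ j, L i j • U j := by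
    intro i
    refine Finset.sum_congr rfl fun j _ => ?_
    rw [hU']
    simp only [smul_smul]
    rw [div_mul_cancel₀ _ (hspos j).ne']
  have hlq : ∀ i j, lq (U' i) (U' j) = s i * s j * lq (U i) (U j) := by
    intro i j
    rw [hU']
    simp only [lq_smul_left, lq_smul_right]
    ring
  have key : ∀ (i j k l : Fin 4) , 0 < lq (U i) (U j) → 0 < lq (U k) (U l) →
      lq (U i) (U j) ^ 2 * (T k * T l) = lq (U k) (U l) ^ 2 * (T i * T j) →
      lq (U' i) (U' j) = lq (U' k) (U' l) := by
    intro i j k l h1 h2 h3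
    rw [hlq, hlq]
    have p1 : 0 < s i * s j * lq (U i) (U j) := mul_pos (mul_pos (hspos i) (hspos j)) h1
    have p2 : 0 < s k * s l * lq (U k) (U l) := mul_pos (mul_pos (hspos k) (hspos l)) h2
    have h4 : (s i * s j * lq (U i) (U j)) ^ 2 = (s k * s l * lq (U k) (U l)) ^ 2 := by
      rw [mul_pow, mul_pow, mul_pow, mul_pow, hs2, hs2, hs2, hs2]
      have := hTpos i
      have := hTpos j
      have := hTpos k
      have := hTpos l
      field_simp
      linear_combination h3
    exact (pow_left_inj₀ p1.le p2.le two_ne_zero).1 h4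
  refine scaled_case U' hU'lin hU'c (fun i j => L i j / s j) ?_ ?_ ?_ ?_ rfl
    (key 2 3 0 1 pa' pa ?_) rfl (key 1 3 0 2 pb' pb ?_) rfl (key 1 2 0 3 pc' pc ?_)
  · exact fun i => div_neg_of_neg_of_pos (hneg i) (hspos i)
  · exact fun i j hij => div_pos (hpos i j hij) (hspos j)
  · intro i
    simp only [hV]
    exact hnull i
  · intro i j hij
    rw [div_mul_div_comm, div_mul_div_comm, mul_comm (s j) (s i)]
    exact div_lt_div_of_pos_right (hridge i j hij) (mul_pos (hspos i) (hspos j))
  · rw [← ha, ← ha']; simp [hT]; ring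
  · rw [← hb, ← hb']; simp [hT]; ring
  · rw [← hc1, ← hc']; simp [hT]; ring

end Pool.Agent.Work.MP_1f68be_co
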