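import Pool.Agent.Work.MP_1f68be_co.Sign

/-!
# MP_1f68be_co: the explicit Kleetope is a polytope and its ridges are faces
-/

namespace Pool.Agent.Work.MP_1f68be_co

variable {d n : ℕ}

/-- Bridge lemma, first half: linear forms in the homogeneous coordinates give affine functions. -/
theorem exists_functional (c : Fin (d + 1) → ℝ) :
    ∃ (l : E d →L[ℝ] ℝ) (M : ℝ), ∀ y : Lab d, ∑ k, vec y k ≠ 0 →
      l (pt y) = M - (∑ k, c k * vec y k) / ∑ k, vec y k := by
  refine ⟨∑ k : Fin d, (c (Fin.last d) - c k.castSucc) • (EuclideanSpace.proj k : E d →L[ℝ] ℝ),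
    c (Fin.last d), fun y hy => ?_⟩
  have h1 : (∑ k : Fin d, (c (Fin.last d) - c k.castSucc) •
      (EuclideanSpace.proj k : E d →L[ℝ] ℝ)) (pt y)
      = ∑ k : Fin d, (c (Fin.last d) - c k.castSucc) * (vec y k.castSucc / ∑ j, vec y j) := by
    rw [sum_apply]
    rfl
  rw [h1]
  have h2 : ∑ k : Fin d, (c (Fin.last d) - c k.castSucc) * (vec y k.castSucc / ∑ j, vec y j)
      = (∑ k : Fin d, (c (Fin.last d) - c k.castSucc) * vec y k.castSucc) / ∑ j, vec y j := by
    rw [Finset.sum_div]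
    exact Finset.sum_congr rfl fun k _ => by ring
  rw [h2, eq_sub_iff_add_eq, ← add_div, div_eq_iff hy]
  rw [Fin.sum_univ_castSucc (f := fun k => c k * vec y k), Fin.sum_univ_castSucc (f := vec y)]
  rw [← add_assoc, ← Finset.sum_add_distrib]
  rw [mul_add, Finset.mul_sum]
  congr 1
  exact Finset.sum_congr rfl fun k _ => by ring

/-- Bridge lemma, second half. -/
theorem exists_coeff (l : E d →L[ℝ] ℝ) (M : ℝ) :
    ∃ c : Fin (d + 1) → ℝ, ∀ y : Lab d, ∑ k, vec y k ≠ 0 →
      M - l (pt y) = (∑ k, c k * vec y k) / ∑ k, vec y k := by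
  refine ⟨fun k => M - l (WithLp.toLp 2 fun m : Fin d =>
    (Pi.single k 1 : Fin (d + 1) → ℝ) m.castSucc), fun y hy => ?_⟩
  have h1 : pt y = (∑ j, vec y j)⁻¹ • ∑ k, vec y k •
      (WithLp.toLp 2 fun m : Fin d => (Pi.single k 1 : Fin (d + 1) → ℝ) m.castSucc) := by
    ext m
    have h2 : (∑ k, vec y k •
      (WithLp.toLp 2 fun m : Fin d => (Pi.single k 1 : Fin (d + 1) → ℝ) m.castSucc)) m
        = vec y m.castSucc := by
      rw [WithLp.ofLp_sum, Finset.sum_apply]
      rw [Finset.sum_eq_single m.castSucc]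
      · simp
      · intro b _ hb
        simp [Pi.single_apply, hb.symm]
      · intro h
        exact absurd (Finset.mem_univ _) h
    change vec y m.castSucc / ∑ j, vec y j = (∑ j, vec y j)⁻¹ * (∑ k, vec y k •
      (WithLp.toLp 2 fun m : Fin d => (Pi.single k 1 : Fin (d + 1) → ℝ) m.castSucc)) m
    rw [h2, div_eq_inv_mul]
  have h3 : l (pt y) = (∑ j, vec y j)⁻¹ * ∑ k, vec y k *
      l (WithLp.toLp 2 fun m : Fin d => (Pi.single k 1 : Fin (d + 1) → ℝ) m.castSucc) := by
    conv_lhs => rw [h1]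
    rw [map_smul, map_sum, smul_eq_mul]
    congr 1
    exact Finset.sum_congr rfl fun k _ => by rw [map_smul, smul_eq_mul]
  rw [h3, eq_div_iff hy, sub_mul]
  have h4 : (∑ j, vec y j)⁻¹ * (∑ k, vec y k *
      l (WithLp.toLp 2 fun m : Fin d => (Pi.single k 1 : Fin (d + 1) → ℝ) m.castSucc)) *
      (∑ j, vec y j) = ∑ k, vec y k *
      l (WithLp.toLp 2 fun m : Fin d => (Pi.single k 1 : Fin (d + 1) → ℝ) m.castSucc) := by
    rw [mul_comm, ← mul_assoc, mul_inv_cancel₀ hy, one_mul]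
  rw [h4, Finset.mul_sum, ← Finset.sum_sub_distrib]
  exact Finset.sum_congr rfl fun k _ => by ring

theorem exists_coeff_C (w : Word d) (a : Fin (d + 1) → ℝ) :
    ∃ c : Fin (d + 1) → ℝ, ∀ v : Fin (d + 1) → ℝ,
      ∑ k, a k * C w v k = ∑ k, c k * v k := by
  refine ⟨fun k => ∑ m, a m * C w (Pi.single k 1) m, fun v => ?_⟩
  have h1 : v = ∑ k, v k • (Pi.single k 1 : Fin (d + 1) → ℝ) := by
    funext m
    rw [Finset.sum_apply, Finset.sum_eq_single m]
    · simp
    · intro b _ hb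
      simp [Pi.single_apply, hb.symm]
    · intro h
      exact absurd (Finset.mem_univ _) h
  have h2 : C w v = ∑ k, v k • C w (Pi.single k 1 : Fin (d + 1) → ℝ) := by
    conv_lhs => rw [h1]
    rw [C_sum]
    exact Finset.sum_congr rfl fun k _ => C_smul w _ _
  have h3 : ∀ m, C w v m = ∑ k, v k * C w (Pi.single k 1 : Fin (d + 1) → ℝ) m := by
    intro m
    rw [h2, Finset.sum_apply]
    rfl
  calc ∑ m, a m * C w v m
      = ∑ m, ∑ k, a m * (v k * C w (Pi.single k 1 : Fin (d + 1) → ℝ) m) := by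
        refine Finset.sum_congr rfl fun m _ => ?_
        rw [h3, Finset.mul_sum]
    _ = ∑ k, ∑ m, a m * (v k * C w (Pi.single k 1 : Fin (d + 1) → ℝ) m) := Finset.sum_comm
    _ = ∑ k, (∑ m, a m * C w (Pi.single k 1 : Fin (d + 1) → ℝ) m) * v k := by
        refine Finset.sum_congr rfl fun k _ => ?_
        rw [Finset.sum_mul]
        exact Finset.sum_congr rfl fun m _ => by ring

theorem sum_pos_of_negAt {v : Fin (d + 1) → ℝ} {m : Fin (d + 1)} (h : NegAt v m)
    {a : Fin (d + 1) → ℝ} (ha : ∀ k, 0 ≤ a k) {k₀ : Fin (d + 1)} (hk : k₀ ≠ m)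
    (h1 : a m ≤ a k₀) (h2 : 0 < a k₀) : 0 < ∑ k, a k * v k := by
  obtain ⟨hm, hv⟩ := h
  rw [← Finset.add_sum_erase _ _ (Finset.mem_univ m)]
  rw [← Finset.add_sum_erase _ _ (Finset.mem_erase.2 ⟨hk, Finset.mem_univ k₀⟩)]
  have h3 : 0 ≤ ∑ k ∈ (Finset.univ.erase m).erase k₀, a k * v k := by
    refine Finset.sum_nonneg fun k hk' => mul_nonneg (ha k) ?_
    have := hv k (Finset.ne_of_mem_erase (Finset.mem_of_mem_erase hk'))
    linarith
  have h4 := hv k₀ hk
  nlinarith [mul_le_mul_of_nonneg_left h4 h2.le, mul_nonneg (sub_nonneg.2 h1) (neg_nonneg.2 hm.le),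
    mul_pos h2 (neg_pos.2 hm)]

theorem isLab_T {w : Word d} (hw : Red w) (hn : w.length ≤ n) (k : Fin (d + 1)) :
    IsLab n (T w k) := by
  induction w with
  | nil => trivial
  | cons j w ih =>
    have hw' : Red w := by
      unfold Red at hw ⊢
      exact hw.of_cons
    have hn' : w.length ≤ n := by
      have : w.length ≤ (j :: w).length := by simp
      omega
    by_cases hk : k = j
    · subst hk
      rw [T_head]
      exact ⟨by simp, hw, hn⟩
    · rw [T_of_ne _ hk]
      exact ih hw' hn'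

theorem exists_node {y : Lab d} (hy : IsLab n y) :
    ∃ (w : Word d) (k : Fin (d + 1)), Red w ∧ w.length ≤ n ∧ T w k = y := by
  cases y with
  | inl k => exact ⟨[], k, by simp [Red], by simp, rfl⟩
  | inr u =>
    obtain ⟨h0, h1, h2⟩ := hy
    cases u with
    | nil => exact absurd rfl h0
    | cons j u => exact ⟨j :: u, j, h1, h2, T_head j u⟩

theorem mem_kleetope {x : E d} : x ∈ kleetope d n ↔ ∃ y : Lab d, IsLab n y ∧ pt y = x := by
  classical
  unfold kleetope
  rw [Finset.mem_image]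
  constructor
  · rintro ⟨y, hy, rfl⟩
    rw [Set.Finite.mem_toFinset] at hy
    exact ⟨y, hy, rfl⟩
  · rintro ⟨y, hy, rfl⟩
    exact ⟨y, by rw [Set.Finite.mem_toFinset]; exact hy, rfl⟩

theorem coe_kleetope : (kleetope d n : Set (E d)) = pt '' {y | IsLab n y} := by
  ext x
  rw [Finset.mem_coe, mem_kleetope]
  rfl

/-- A nonnegative linear form at a node gives a functional exposing its zero set. -/
theorem exists_expose (hd : 2 ≤ d) (w : Word d) (a : Fin (d + 1) → ℝ) :
    ∃ (l : E d →L[ℝ] ℝ) (M : ℝ), ∀ y : Lab d, IsLab n y →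
      ((0 ≤ ∑ k, a k * C w (vec y) k → l (pt y) ≤ M) ∧
       (0 < ∑ k, a k * C w (vec y) k → l (pt y) < M) ∧
       (∑ k, a k * C w (vec y) k = 0 → l (pt y) = M)) := by
  obtain ⟨c, hc⟩ := exists_coeff_C w a
  obtain ⟨l, M, hl⟩ := exists_functional c
  refine ⟨l, M, fun y hy => ?_⟩
  have hs := sum_vec_pos hd hy
  rw [hl y hs.ne', hc]
  refine ⟨fun h => ?_, fun h => ?_, fun h => ?_⟩
  · have := div_nonneg h hs.le
    linarith
  · have := div_pos h hs
    linarith
  · rw [h, zero_div, sub_zero]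

theorem sum_C_T (w : Word d) (a : Fin (d + 1) → ℝ) (k : Fin (d + 1)) :
    ∑ m, a m * C w (vec (T w k)) m = a k := by
  rw [vec_T, C_X, Finset.sum_eq_single k]
  · simp
  · intro b _ hb
    simp [Pi.single_apply, hb]
  · intro h
    exact absurd (Finset.mem_univ _) h

theorem exists_ne_ne (hd : 2 ≤ d) (i j : Fin (d + 1)) : ∃ k, k ≠ i ∧ k ≠ j := by
  have h : (({i, j} : Finset (Fin (d + 1)))).card < (Finset.univ : Finset (Fin (d + 1))).card := by
    have := Finset.card_le_two (a := i) (b := j)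
    rw [Finset.card_univ, Fintype.card_fin]
    omega
  obtain ⟨k, _, hk⟩ := Finset.exists_mem_notMem_of_card_lt_card h
  simp only [Finset.mem_insert, Finset.mem_singleton, not_or] at hk
  exact ⟨k, hk.1, hk.2⟩

/-- The functional of a ridge. -/
theorem ridge_functional (hd : 2 ≤ d) {w : Word d} (hw : Red w)
    {i j : Fin (d + 1)} (hij : i ≠ j) :
    ∃ (l : E d →L[ℝ] ℝ) (M : ℝ), (∀ k, k ≠ i → k ≠ j → ∀ y, IsLab n y → T w k = y →
        l (pt y) = M) ∧
      ∀ y : Lab d, IsLab n y → (∀ k, k ≠ i → k ≠ j → T w k ≠ y) → l (pt y) < M := by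
  classical
  obtain ⟨l, M, hl⟩ := exists_expose (n := n) hd w (fun k => if k = i ∨ k = j then 1 else 0)
  refine ⟨l, M, ?_, ?_⟩
  · rintro k hki hkj y hy rfl
    refine (hl _ hy).2.2 ?_
    rw [sum_C_T w (fun k => if k = i ∨ k = j then (1 : ℝ) else 0) k]
    simp [hki, hkj]
  · intro y hy hT
    refine (hl y hy).2.1 ?_
    by_cases hex : ∃ k, T w k = y
    · obtain ⟨k, rfl⟩ := hex
      rw [sum_C_T w (fun k => if k = i ∨ k = j then (1 : ℝ) else 0) k]
      by_cases hk : k = i ∨ k = j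
      · simp [hk]
      · push Not at hk
        exact absurd rfl (hT k hk.1 hk.2)
    · push Not at hex
      obtain ⟨m, hm⟩ := negAt_exists hw hy hex
      have hnn : ∀ k, (0 : ℝ) ≤ (fun k => if k = i ∨ k = j then (1 : ℝ) else 0) k := by
        intro k
        dsimp only
        split_ifs <;> norm_num
      by_cases hmi : m = i
      · subst hmi
        exact sum_pos_of_negAt hm hnn (k₀ := j) (Ne.symm hij) (by simp) (by simp)
      · refine sum_pos_of_negAt hm hnn (k₀ := i) (Ne.symm hmi) ?_ (by simp)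
        change (if m = i ∨ m = j then (1 : ℝ) else 0) ≤ if i = i ∨ i = j then (1 : ℝ) else 0
        rw [if_pos (Or.inl rfl)]
        split_ifs <;> norm_num

/-- The functional of a vertex. -/
theorem vertex_functional (hd : 2 ≤ d) {y : Lab d} (hy : IsLab n y) :
    ∃ (l : E d →L[ℝ] ℝ) (M : ℝ), l (pt y) = M ∧
      ∀ z : Lab d, IsLab n z → z ≠ y → l (pt z) < M := by
  classical
  obtain ⟨w, k, hw, hn, rfl⟩ := exists_node hy
  obtain ⟨l, M, hl⟩ := exists_expose (n := n) hd w (fun m => if m = k then 0 else 1)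
  refine ⟨l, M, ?_, ?_⟩
  · refine (hl _ hy).2.2 ?_
    rw [sum_C_T w (fun m => if m = k then (0 : ℝ) else 1) k]
    simp
  · intro z hz hzy
    refine (hl z hz).2.1 ?_
    by_cases hex : ∃ m, T w m = z
    · obtain ⟨m, rfl⟩ := hex
      rw [sum_C_T w (fun m => if m = k then (0 : ℝ) else 1) m]
      have hmk : m ≠ k := by
        rintro rfl
        exact hzy rfl
      simp [hmk]
    · push Not at hex
      obtain ⟨m, hm⟩ := negAt_exists hw hz hex
      obtain ⟨k₀, h1, h2⟩ := exists_ne_ne hd k m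
      refine sum_pos_of_negAt hm (fun k' => ?_) h2 ?_ ?_
      · split_ifs <;> norm_num
      · rw [if_neg h1]
        split_ifs <;> norm_num
      · rw [if_neg h1]
        norm_num

theorem pt_injOn (hd : 2 ≤ d) : Set.InjOn (pt (d := d)) {y | IsLab n y} := by
  intro y hy z hz hyz
  by_contra hne
  obtain ⟨l, M, h1, h2⟩ := vertex_functional (n := n) hd hy
  have := h2 z hz (Ne.symm hne)
  rw [← hyz, h1] at this
  exact lt_irrefl _ this

theorem ridge_isFace (hd : 2 ≤ d) {w : Word d} (hw : Red w) (hn : w.length ≤ n)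
    {i j : Fin (d + 1)} (hij : i ≠ j) :
    IsFace (kleetope d n : Set (E d)) (pt '' {y | ∃ k, k ≠ i ∧ k ≠ j ∧ T w k = y}) := by
  obtain ⟨l, M, h1, h2⟩ := ridge_functional (n := n) hd hw hij
  obtain ⟨k₀, hk1, hk2⟩ := exists_ne_ne hd i j
  have hle : ∀ z, IsLab n z → l (pt z) ≤ M := by
    intro z hz
    by_cases hex : ∃ k, k ≠ i ∧ k ≠ j ∧ T w k = z
    · obtain ⟨k, hki, hkj, hkz⟩ := hex
      exact (h1 k hki hkj z hz hkz).le
    · push Not at hex
      exact (h2 z hz hex).le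
  refine ⟨l, fun x => ⟨?_, ?_⟩⟩
  · rintro ⟨y, ⟨k, hki, hkj, rfl⟩, rfl⟩
    have hlab := isLab_T hw hn k
    refine ⟨Finset.mem_coe.2 (mem_kleetope.2 ⟨_, hlab, rfl⟩), fun x' hx' => ?_⟩
    obtain ⟨z, hz, rfl⟩ := mem_kleetope.1 (Finset.mem_coe.1 hx')
    rw [h1 k hki hkj _ hlab rfl]
    exact hle z hz
  · rintro ⟨hx, hmax⟩
    obtain ⟨y, hy, rfl⟩ := mem_kleetope.1 (Finset.mem_coe.1 hx)
    have hlab := isLab_T hw hn k₀
    have h3 := hmax (pt (T w k₀)) (Finset.mem_coe.2 (mem_kleetope.2 ⟨_, hlab, rfl⟩))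
    rw [h1 k₀ hk1 hk2 _ hlab rfl] at h3
    refine ⟨y, ?_, rfl⟩
    by_contra hcon
    have h4 : ∀ k, k ≠ i → k ≠ j → T w k ≠ y := fun k hki hkj hky => hcon ⟨k, hki, hkj, hky⟩
    exact absurd (h2 y hy h4) (not_lt.2 h3)

theorem pt_inl (k : Fin (d + 1)) :
    pt (Sum.inl k : Lab d) = WithLp.toLp 2 fun m : Fin d => if m.castSucc = k then 1 else 0 := by
  unfold pt
  congr 1
  funext m
  have h : ∑ j, vec (Sum.inl k : Lab d) j = 1 := by
    simp [vec]
  rw [h, div_one]
  simp [vec, Pi.single_apply]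

theorem kleetope_isPolytope (hd : 2 ≤ d) (n : ℕ) : IsPolytope (kleetope d n) := by
  refine ⟨?_, ?_⟩
  · have hmem : ∀ k : Fin (d + 1), pt (Sum.inl k : Lab d) ∈
        affineSpan ℝ (kleetope d n : Set (E d)) := fun k =>
      subset_affineSpan ℝ _ (Finset.mem_coe.2 (mem_kleetope.2 ⟨Sum.inl k, trivial, rfl⟩))
    have h0 : pt (Sum.inl (Fin.last d) : Lab d) = 0 := by
      rw [pt_inl]
      ext m
      simp
    rw [eq_top_iff]
    intro x _
    have hz := hmem (Fin.last d)
    rw [h0] at hz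
    have hdir : x ∈ (affineSpan ℝ (kleetope d n : Set (E d))).direction := by
      rw [← (EuclideanSpace.basisFun (Fin d) ℝ).sum_repr x]
      refine Submodule.sum_mem _ fun m _ => Submodule.smul_mem _ _ ?_
      have h1 := AffineSubspace.vsub_mem_direction (hmem m.castSucc) hz
      have h2 : pt (Sum.inl m.castSucc : Lab d) -ᵥ (0 : E d)
          = (EuclideanSpace.basisFun (Fin d) ℝ) m := by
        rw [vsub_eq_sub, sub_zero, pt_inl]
        ext k
        simp [Pi.single_apply]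
      rwa [h2] at h1
    have := AffineSubspace.vadd_mem_of_mem_direction hdir hz
    simpa using this
  · intro v hv hcon
    obtain ⟨y, hy, rfl⟩ := mem_kleetope.1 hv
    obtain ⟨l, M, h1, h2⟩ := vertex_functional (n := n) hd hy
    have hsub : (kleetope d n : Set (E d)) \ {pt y} ⊆ {x | l x < M} := by
      rintro x ⟨hx, hxy⟩
      obtain ⟨z, hz, rfl⟩ := mem_kleetope.1 (Finset.mem_coe.1 hx)
      refine h2 z hz ?_
      rintro rfl
      exact hxy rfl
    have hconv : Convex ℝ {x : E d | l x < M} := convex_halfSpace_lt l.isLinear M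
    have h3 := convexHull_min hsub hconv hcon
    have h4 : l (pt y) < M := h3
    rw [h1] at h4
    exact lt_irrefl _ h4

end Pool.Agent.Work.MP_1f68be_co
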