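import Pool.Agent.Work.MP_1f68be_co.Defs

/-!
# Realisations of the stacking tree: barycentric sign patterns
-/

namespace Pool.Agent.Work.MP_1f68be_co

variable {d n : ℕ}

theorem T_cases (w : Word d) (k : Fin (d + 1)) :
    T w k = Sum.inl k ∨ ∃ w', T w k = Sum.inr (k :: w') ∧ (k :: w') <:+ w := by
  induction w with
  | nil => exact Or.inl rfl
  | cons i w ih =>
    by_cases hk : k = i
    · subst hk
      right
      refine ⟨w, ?_, List.suffix_rfl⟩
      simp [T]
    · have hT : T (i :: w) k = T w k := by simp [T, hk]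
      rw [hT]
      rcases ih with h | ⟨w', h, hs⟩
      · exact Or.inl h
      · exact Or.inr ⟨w', h, hs.trans (List.suffix_cons i w)⟩

theorem T_injective {w : Word d} : Function.Injective (T w) := by
  intro k k' h
  rcases T_cases w k with h1 | ⟨w1, h1, -⟩ <;> rcases T_cases w k' with h2 | ⟨w2, h2, -⟩
  · rw [h1, h2] at h
    exact Sum.inl_injective h
  · rw [h1, h2] at h
    cases h
  · rw [h1, h2] at h
    cases h
  · rw [h1, h2] at h
    have := Sum.inr_injective h
    exact (List.cons.inj this).1

theorem T_ne_of_length {w u : Word d} (h : w.length < u.length) (k : Fin (d + 1)) :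
    T w k ≠ Sum.inr u := by
  intro h'
  rcases T_cases w k with h1 | ⟨w1, h1, hs⟩
  · rw [h1] at h'
    cases h'
  · rw [h1] at h'
    have h2 := Sum.inr_injective h'
    rw [h2] at hs
    have := hs.length_le
    omega

theorem isLab_T_real {w : Word d} (hw : Red w) (hn : w.length ≤ n) (k : Fin (d + 1)) :
    IsLab n (T w k) := by
  rcases T_cases w k with h1 | ⟨w1, h1, hs⟩
  · rw [h1]
    trivial
  · rw [h1]
    refine ⟨by simp, ?_, hs.length_le.trans hn⟩
    exact List.IsChain.suffix hw hs

theorem T_cons_self (i : Fin (d + 1)) (w : Word d) : T (i :: w) i = Sum.inr (i :: w) := by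
  simp [T]

theorem T_cons_of_ne {i k : Fin (d + 1)} (w : Word d) (h : k ≠ i) : T (i :: w) k = T w k := by
  simp [T, h]

theorem exists_T_eq {y : Lab d} (hy : IsLab n y) :
    ∃ (u : Word d) (m : Fin (d + 1)), Red u ∧ u.length ≤ n ∧ T u m = y := by
  rcases y with k | u
  · exact ⟨[], k, List.isChain_nil, by simp, rfl⟩
  · rcases u with _ | ⟨i, w⟩
    · exact absurd rfl hy.1
    · exact ⟨i :: w, i, hy.2.1, hy.2.2, T_cons_self i w⟩

theorem exists_two (hd : 3 ≤ d) (i j : Fin (d + 1)) :
    ∃ a b : Fin (d + 1), a ≠ b ∧ a ≠ i ∧ a ≠ j ∧ b ≠ i ∧ b ≠ j := by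
  have h1 : 1 < (Finset.univ \ ({i, j} : Finset (Fin (d + 1)))).card := by
    have h2 := Finset.le_card_sdiff ({i, j} : Finset (Fin (d + 1))) Finset.univ
    have h3 : ({i, j} : Finset (Fin (d + 1))).card ≤ 2 := Finset.card_le_two
    simp only [Finset.card_univ, Fintype.card_fin] at h2
    omega
  obtain ⟨a, ha, b, hb, hab⟩ := Finset.one_lt_card.mp h1
  simp only [Finset.mem_sdiff, Finset.mem_univ, Finset.mem_insert, Finset.mem_singleton,
    true_and, not_or] at ha hb
  exact ⟨a, b, hab, ha.1, ha.2, hb.1, hb.2⟩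

/-- Evaluation of an affine function on a combination. -/
theorem sum_eval {x : Fin (d + 1) → E d} {p : E d} {lam : Fin (d + 1) → ℝ} {s : ℝ}
    (h1 : ∑ k, lam k = s) (h2 : ∑ k, lam k • x k = p) (l : E d →L[ℝ] ℝ) (M : ℝ) :
    ∑ k, lam k * (l (x k) - M) = l p - s * M := by
  rw [← h2, ← h1, map_sum, Finset.sum_mul, ← Finset.sum_sub_distrib]
  refine Finset.sum_congr rfl fun k _ => ?_
  rw [map_smul, smul_eq_mul]
  ring

theorem ridge_eval {x : Fin (d + 1) → E d} {p : E d} {lam : Fin (d + 1) → ℝ} {s : ℝ}
    (h1 : ∑ k, lam k = s) (h2 : ∑ k, lam k • x k = p) (l : E d →L[ℝ] ℝ) (M : ℝ)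
    {i j : Fin (d + 1)} (hij : i ≠ j) (hl : ∀ k, k ≠ i → k ≠ j → l (x k) = M) :
    lam i * (l (x i) - M) + lam j * (l (x j) - M) = l p - s * M := by
  rw [← sum_eval h1 h2 l M]
  symm
  refine Finset.sum_eq_add i j hij ?_ ?_ ?_
  · rintro c - ⟨hc1, hc2⟩
    rw [hl c hc1 hc2]
    ring
  · intro h
    exact absurd (Finset.mem_univ _) h
  · intro h
    exact absurd (Finset.mem_univ _) h

/-- The functional of a ridge. -/
theorem ridge_functional_real {g : Lab d → E d} (hg : RidgeProp n g) {w : Word d}
    (hw : Red w) (hn : w.length ≤ n) {i j : Fin (d + 1)} (hij : i ≠ j) :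
    ∃ (l : E d →L[ℝ] ℝ) (M : ℝ), (∀ k, k ≠ i → k ≠ j → l (g (T w k)) = M) ∧
      l (g (T w i)) < M ∧ l (g (T w j)) < M ∧
      ∀ y : Lab d, IsLab n y → (∀ k, k ≠ i → k ≠ j → T w k ≠ y) → l (g y) < M := by
  obtain ⟨l, M, h1, h2⟩ := hg w hw hn i j hij
  refine ⟨l, M, h1, ?_, ?_, h2⟩
  · refine h2 _ (isLab_T_real hw hn i) fun k hki _ h => hki (T_injective h)
  · refine h2 _ (isLab_T_real hw hn j) fun k _ hkj h => hkj (T_injective h)

theorem coord_unique_zero (hd : 3 ≤ d) {g : Lab d → E d} (hg : RidgeProp n g) {w : Word d}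
    (hw : Red w) (hn : w.length ≤ n) {a : Fin (d + 1) → ℝ} (h1 : ∑ k, a k = 0)
    (h2 : ∑ k, a k • g (T w k) = 0) : ∀ k, a k = 0 := by
  have key : ∀ i j, i ≠ j → a i = 0 ∨ a i * a j < 0 := by
    intro i j hij
    obtain ⟨l, M, hl, hi, hj, -⟩ := ridge_functional_real hg hw hn hij
    have h := ridge_eval (x := fun k => g (T w k)) h1 h2 l M hij hl
    simp only [map_zero, zero_mul, sub_zero] at h
    by_cases h0 : a i = 0
    · exact Or.inl h0
    · right
      have hi' : l (g (T w i)) - M < 0 := by linarith
      have hj' : l (g (T w j)) - M < 0 := by linarith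
      set A := l (g (T w i)) - M with hA
      set B := l (g (T w j)) - M with hB
      have h3 : a i * a j * B = -(a i ^ 2 * A) := by
        have : a j * B = - (a i * A) := by linarith
        calc a i * a j * B = a i * (a j * B) := by ring
          _ = -(a i ^ 2 * A) := by rw [this]; ring
      have h4 : 0 < -(a i ^ 2 * A) := by
        have : 0 < a i ^ 2 := by positivity
        nlinarith
      rw [← h3] at h4
      by_contra h5
      push Not at h5
      nlinarith
  intro i
  by_contra h0
  obtain ⟨b, c, hbc, hbi, -, hci, -⟩ := exists_two hd i i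
  have e1 := (key i b (Ne.symm hbi)).resolve_left h0
  have e2 := (key i c (Ne.symm hci)).resolve_left h0
  have hb0 : a b ≠ 0 := by
    intro h
    rw [h] at e1
    simp at e1
  have e3 := (key b c hbc).resolve_left hb0
  rcases lt_trichotomy (a i) 0 with h | h | h
  · have h6 : 0 < a b := by nlinarith
    have h7 : 0 < a c := by nlinarith
    nlinarith
  · exact h0 h
  · have h6 : a b < 0 := by nlinarith
    have h7 : a c < 0 := by nlinarith
    nlinarith

theorem real_indep (hd : 3 ≤ d) {g : Lab d → E d} (hg : RidgeProp n g) {w : Word d}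
    (hw : Red w) (hn : w.length ≤ n) : AffineIndependent ℝ (fun k => g (T w k)) := by
  rw [affineIndependent_iff_of_fintype]
  intro a ha h
  rw [Finset.weightedVSub_eq_linear_combination _ ha] at h
  exact coord_unique_zero hd hg hw hn ha h

theorem coord_unique (hd : 3 ≤ d) {g : Lab d → E d} (hg : RidgeProp n g) {w : Word d}
    (hw : Red w) (hn : w.length ≤ n) {a b : Fin (d + 1) → ℝ} {p : E d} (h1 : ∑ k, a k = 1)
    (h2 : ∑ k, a k • g (T w k) = p) (h1' : ∑ k, b k = 1)
    (h2' : ∑ k, b k • g (T w k) = p) (k : Fin (d + 1)) : a k = b k := by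
  have h := coord_unique_zero hd hg hw hn (a := fun k => a k - b k)
    (by rw [Finset.sum_sub_distrib, h1, h1', sub_self])
    (by simp only [sub_smul]; rw [Finset.sum_sub_distrib, h2, h2', sub_self]) k
  linarith

theorem exists_coord (hd : 3 ≤ d) {g : Lab d → E d} (hg : RidgeProp n g) {w : Word d}
    (hw : Red w) (hn : w.length ≤ n) (p : E d) :
    ∃ lam : Fin (d + 1) → ℝ, ∑ k, lam k = 1 ∧ ∑ k, lam k • g (T w k) = p := by
  have hi := real_indep hd hg hw hn
  have htop : affineSpan ℝ (Set.range fun k => g (T w k)) = ⊤ := by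
    rw [hi.affineSpan_eq_top_iff_card_eq_finrank_add_one]
    simp
  have hp : p ∈ affineSpan ℝ (Set.range fun k => g (T w k)) := by
    rw [htop]
    exact AffineSubspace.mem_top ℝ _ p
  obtain ⟨lam, h1, h2⟩ := eq_affineCombination_of_mem_affineSpan_of_fintype hp
  refine ⟨lam, h1, ?_⟩
  rw [h2, Finset.affineCombination_eq_linear_combination _ _ _ h1]

theorem pair_pos {g : Lab d → E d} (hg : RidgeProp n g) {w : Word d}
    (hw : Red w) (hn : w.length ≤ n) {y : Lab d} (hy : IsLab n y) (hyw : ∀ k, T w k ≠ y)
    {lam : Fin (d + 1) → ℝ} (h1 : ∑ k, lam k = 1) (h2 : ∑ k, lam k • g (T w k) = g y)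
    {i j : Fin (d + 1)} (hij : i ≠ j) (hi : lam i ≤ 0) : 0 < lam j := by
  obtain ⟨l, M, hl, hxi, hxj, hlt⟩ := ridge_functional_real hg hw hn hij
  have h := ridge_eval (x := fun k => g (T w k)) h1 h2 l M hij hl
  have hy' : l (g y) < M := hlt y hy fun k _ _ => hyw k
  simp only [one_mul] at h
  by_contra h0
  push Not at h0
  nlinarith

theorem beyond_exists (hd : 3 ≤ d) {g : Lab d → E d} (hg : RidgeProp n g) {w : Word d}
    (hw : Red w) (hn : w.length ≤ n) {y : Lab d} (hy : IsLab n y) (hyw : ∀ k, T w k ≠ y) :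
    ∃ i, Beyond (fun k => g (T w k)) (g y) i := by
  obtain ⟨lam, h1, h2⟩ := exists_coord hd hg hw hn (g y)
  by_cases hneg : ∃ i, lam i < 0
  · obtain ⟨i, hi⟩ := hneg
    exact ⟨i, lam, h1, h2, hi, fun k hk => pair_pos hg hw hn hy hyw h1 h2 hk.symm hi.le⟩
  · exfalso
    push Not at hneg
    obtain ⟨u, m, hu, hun, hum⟩ := exists_T_eq hy
    obtain ⟨a, b, hab, ham, -, hbm, -⟩ := exists_two hd m m
    obtain ⟨l, M, hl, -, -, hlt⟩ := ridge_functional_real hg hu hun hab
    have hyM : l (g y) = M := by
      rw [← hum]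
      exact hl m ham.symm hbm.symm
    have hsum := sum_eval (x := fun k => g (T w k)) h1 h2 l M
    rw [hyM, one_mul, sub_self] at hsum
    have hle : ∀ z : Lab d, IsLab n z → l (g z) ≤ M := by
      intro z hz
      by_cases hzr : ∀ k, k ≠ a → k ≠ b → T u k ≠ z
      · exact (hlt z hz hzr).le
      · push Not at hzr
        obtain ⟨k, hka, hkb, hk⟩ := hzr
        rw [← hk]
        exact (hl k hka hkb).le
    have hterm : ∀ k, lam k * (l (g (T w k)) - M) = 0 := by
      have h3 := (Finset.sum_eq_zero_iff_of_nonpos (s := Finset.univ)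
        (f := fun k => lam k * (l (g (T w k)) - M)) (fun k _ =>
          mul_nonpos_of_nonneg_of_nonpos (hneg k)
            (by have := hle (T w k) (isLab_T_real hw hn k); linarith))).mp hsum
      exact fun k => h3 k (Finset.mem_univ k)
    -- indices with positive coordinate lie in the ridge
    have hin : ∀ k, 0 < lam k → ∃ k', k' ≠ a ∧ k' ≠ b ∧ T u k' = T w k := by
      intro k hk
      by_contra hcon
      push Not at hcon
      have h4 := hlt (T w k) (isLab_T_real hw hn k) hcon
      have h5 := hterm k
      rcases mul_eq_zero.mp h5 with h6 | h6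
      · linarith
      · linarith
    -- at most one zero coordinate
    classical
    choose! φ hφ using hin
    have hcard1 : (Finset.univ.filter fun k => 0 < lam k).card ≤
        (Finset.univ \ ({a, b} : Finset (Fin (d + 1)))).card := by
      refine Finset.card_le_card_of_injOn φ ?_ ?_
      · intro k hk
        have hk' : 0 < lam k := by simpa using hk
        have := hφ k hk'
        simp only [Finset.coe_sdiff, Finset.coe_univ, Finset.coe_insert, Finset.coe_singleton,
          Set.mem_sdiff, Set.mem_univ, Set.mem_insert_iff, Set.mem_singleton_iff, true_and, not_or]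
        exact ⟨this.1, this.2.1⟩
      · intro k hk k' hk' heq
        have hk1 : 0 < lam k := by simpa using hk
        have hk2 : 0 < lam k' := by simpa using hk'
        have e1 := (hφ k hk1).2.2
        have e2 := (hφ k' hk2).2.2
        rw [heq, e2] at e1
        exact (T_injective e1).symm
    have hcard2 : (Finset.univ \ ({a, b} : Finset (Fin (d + 1)))).card = d + 1 - 2 := by
      rw [Finset.card_sdiff_of_subset (Finset.subset_univ _), Finset.card_pair hab]
      simp
    have hcard3 : (Finset.univ.filter fun k => ¬ 0 < lam k).card ≤ 1 := by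
      rw [Finset.card_le_one]
      intro i hi j hj
      by_contra hij
      have hi' : lam i ≤ 0 := by simpa using hi
      have hj' : lam j ≤ 0 := by simpa using hj
      have := pair_pos hg hw hn hy hyw h1 h2 hij hi'
      linarith
    have hcard4 := Finset.card_filter_add_card_filter_not (s := (Finset.univ : Finset (Fin (d + 1))))
      (fun k => 0 < lam k)
    simp only [Finset.card_univ, Fintype.card_fin] at hcard4
    omega

theorem beyond_new (hd : 3 ≤ d) {g : Lab d → E d} (hg : RidgeProp n g) {i : Fin (d + 1)}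
    {w : Word d} (hu : Red (i :: w)) (hn : (i :: w).length ≤ n) :
    Beyond (fun k => g (T w k)) (g (Sum.inr (i :: w))) i := by
  have hw : Red w := List.IsChain.suffix hu (List.suffix_cons i w)
  have hwn : w.length ≤ n := by
    simp only [List.length_cons] at hn
    omega
  have hne : ∀ k, T w k ≠ Sum.inr (i :: w) := T_ne_of_length (by simp)
  have hlab : IsLab n (Sum.inr (i :: w) : Lab d) := ⟨by simp, hu, hn⟩
  obtain ⟨j, lam, h1, h2, hj, hpos⟩ := beyond_exists hd hg hw hwn hlab hne
  by_cases hij : j = i
  · subst hij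
    exact ⟨lam, h1, h2, hj, hpos⟩
  · exfalso
    obtain ⟨a, b, hab, hai, haj, hbi, hbj⟩ := exists_two hd i j
    obtain ⟨l, M, hl, hla, hlb, hlt⟩ := ridge_functional_real hg hu hn hab
    have hM : l (g (Sum.inr (i :: w))) = M := by
      have := hl i hai.symm hbi.symm
      rwa [T_cons_self] at this
    have hsum := sum_eval (x := fun k => g (T w k)) h1 h2 l M
    rw [hM, one_mul, sub_self] at hsum
    have hxi : l (g (T w i)) < M := by
      refine hlt _ (isLab_T_real hw hwn i) ?_
      intro k _ _ hk
      by_cases hki : k = i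
      · subst hki
        rw [T_cons_self] at hk
        exact hne _ hk.symm
      · rw [T_cons_of_ne w hki] at hk
        exact hki (T_injective hk)
    have hle : ∀ k, k ≠ i → l (g (T w k)) ≤ M := by
      intro k hki
      rw [← T_cons_of_ne w hki]
      by_cases hka : k = a
      · rw [hka]
        exact hla.le
      · by_cases hkb : k = b
        · rw [hkb]
          exact hlb.le
        · exact (hl k hka hkb).le
    have hxj : l (g (T w j)) = M := by
      rw [← T_cons_of_ne w hij]
      exact hl j haj.symm hbj.symm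
    have hneg : ∑ k, lam k * (l (g (T w k)) - M) < 0 := by
      refine Finset.sum_neg' (fun k _ => ?_) ⟨i, Finset.mem_univ i, ?_⟩
      · by_cases hkj : k = j
        · rw [hkj, hxj]
          simp
        · by_cases hki : k = i
          · rw [hki]
            have := hpos i (Ne.symm hij)
            nlinarith
          · have := hpos k hkj
            have := hle k hki
            nlinarith
      · have := hpos i (Ne.symm hij)
        nlinarith
    linarith

/-- Change of coordinates from the simplex `i :: w` to the simplex `w`. -/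
theorem change_coord {g : Lab d → E d} {i : Fin (d + 1)} {w : Word d}
    {kap mu : Fin (d + 1) → ℝ} {p : E d} (k1 : ∑ k, kap k = 1)
    (k2 : ∑ k, kap k • g (T w k) = g (Sum.inr (i :: w)))
    (m1 : ∑ k, mu k = 1) (m2 : ∑ k, mu k • g (T (i :: w) k) = p) :
    ∃ nu : Fin (d + 1) → ℝ, ∑ k, nu k = 1 ∧ ∑ k, nu k • g (T w k) = p ∧
      nu i = mu i * kap i := by
  refine ⟨fun k => (if k = i then 0 else mu k) + mu i * kap k, ?_, ?_, ?_⟩
  · rw [Finset.sum_add_distrib, ← Finset.mul_sum, k1, mul_one, ← m1]
    rw [← Finset.add_sum_erase Finset.univ mu (Finset.mem_univ i), add_comm]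
    congr 1
    rw [← Finset.add_sum_erase Finset.univ _ (Finset.mem_univ i)]
    simp only [if_true, zero_add]
    refine Finset.sum_congr rfl fun k hk => ?_
    rw [if_neg (Finset.ne_of_mem_erase hk)]
  · simp only [add_smul]
    rw [Finset.sum_add_distrib]
    have h3 : ∑ k, (mu i * kap k) • g (T w k) = mu i • g (Sum.inr (i :: w)) := by
      rw [← k2, Finset.smul_sum]
      refine Finset.sum_congr rfl fun k _ => ?_
      rw [smul_smul]
    rw [h3, ← m2]
    rw [← Finset.add_sum_erase Finset.univ (fun k => mu k • g (T (i :: w) k))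
      (Finset.mem_univ i), T_cons_self, add_comm]
    congr 1
    rw [← Finset.add_sum_erase Finset.univ _ (Finset.mem_univ i)]
    simp only [if_true, zero_smul, zero_add]
    refine Finset.sum_congr rfl fun k hk => ?_
    rw [if_neg (Finset.ne_of_mem_erase hk), T_cons_of_ne w (Finset.ne_of_mem_erase hk)]
  · simp

theorem beyond_down (hd : 3 ≤ d) {g : Lab d → E d} (hg : RidgeProp n g) {i : Fin (d + 1)}
    {w u : Word d} (hs : (i :: w) <:+ u) (hu : Red u) (hn : u.length ≤ n) :
    Beyond (fun k => g (T w k)) (g (Sum.inr u)) i := by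
  obtain ⟨v, hv⟩ := hs
  induction v using List.reverseRecOn generalizing i w with
  | nil =>
    simp only [List.nil_append] at hv
    subst hv
    exact beyond_new hd hg hu hn
  | append_singleton v j ih =>
    have hv' : v ++ (j :: i :: w) = u := by
      rw [← hv]
      simp
    have hb := ih hv'
    have hs1 : (j :: i :: w) <:+ u := ⟨v, hv'⟩
    have hs2 : (i :: w) <:+ u := (List.suffix_cons j _).trans hs1
    have hred1 : Red (j :: i :: w) := List.IsChain.suffix hu hs1
    have hred2 : Red (i :: w) := List.IsChain.suffix hu hs2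
    have hji : j ≠ i := by
      have := hred1
      unfold Red at this
      rw [List.isChain_cons_cons] at this
      exact this.1
    have hlen1 : (j :: i :: w).length ≤ u.length := hs1.length_le
    simp only [List.length_cons] at hlen1
    have hn2 : (i :: w).length ≤ n := by
      simp only [List.length_cons]
      omega
    have hwred : Red w := List.IsChain.suffix hred2 (List.suffix_cons i w)
    have hwn : w.length ≤ n := by omega
    obtain ⟨mu, m1, m2, m3, m4⟩ := hb
    obtain ⟨kap, k1, k2, k3, k4⟩ := beyond_new hd hg hred2 hn2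
    obtain ⟨nu, n1, n2, n3⟩ := change_coord k1 k2 m1 m2
    have hune : u ≠ [] := by
      rintro rfl
      simp at hlen1
    obtain ⟨i', lam, h1, h2, h3, h4⟩ := beyond_exists hd hg hwred hwn
      (y := Sum.inr u) ⟨hune, hu, hn⟩ (T_ne_of_length (by omega))
    have hnu : lam i = nu i := coord_unique hd hg hwred hwn h1 h2 n1 n2 i
    have hmi : 0 < mu i := m4 i hji.symm
    have hneg : lam i < 0 := by
      rw [hnu, n3]
      exact mul_neg_of_pos_of_neg hmi k3
    have hii : i' = i := by
      by_contra hne
      have := h4 i (Ne.symm hne)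
      linarith
    subst hii
    exact ⟨lam, h1, h2, h3, h4⟩

theorem beyond_up_of (hd : 3 ≤ d) {g : Lab d → E d} (hg : RidgeProp n g) {j : Fin (d + 1)}
    {w u : Word d} (hw : Red (j :: w)) (hu : Red u) (hn : u.length ≤ n)
    (hlen : (j :: w).length < u.length) {i : Fin (d + 1)} (hij : i ≠ j)
    (hb : Beyond (fun k => g (T w k)) (g (Sum.inr u)) i) :
    Beyond (fun k => g (T (j :: w) k)) (g (Sum.inr u)) j := by
  have hwred : Red w := List.IsChain.suffix hw (List.suffix_cons j w)
  have hwn' : (j :: w).length ≤ n := by omega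
  have hwn : w.length ≤ n := by
    simp only [List.length_cons] at hwn'
    omega
  have hune : u ≠ [] := by
    rintro rfl
    simp at hlen
  obtain ⟨i', mu, m1, m2, m3, m4⟩ := beyond_exists hd hg hw hwn'
    (y := Sum.inr u) ⟨hune, hu, hn⟩ (T_ne_of_length hlen)
  obtain ⟨kap, k1, k2, k3, k4⟩ := beyond_new hd hg hw hwn'
  obtain ⟨nu, n1, n2, n3⟩ := change_coord k1 k2 m1 m2
  obtain ⟨lam, h1, h2, h3, h4⟩ := hb
  have hnu : lam j = nu j := coord_unique hd hg hwred hwn h1 h2 n1 n2 j
  have hlj : 0 < lam j := h4 j hij.symm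
  have hneg : mu j < 0 := by
    rw [hnu, n3] at hlj
    by_contra hcon
    push Not at hcon
    nlinarith
  have hii : i' = j := by
    by_contra hne
    have := m4 j (Ne.symm hne)
    linarith
  subst hii
  exact ⟨mu, m1, m2, m3, m4⟩

theorem exists_cons_suffix_real {w u : Word d} (h : w <:+ u) (hlen : w.length < u.length) :
    ∃ i : Fin (d + 1), (i :: w) <:+ u := by
  obtain ⟨v, hv⟩ := h
  rcases List.eq_nil_or_concat v with rfl | ⟨v', i, rfl⟩
  · simp only [List.nil_append] at hv
    subst hv
    exact absurd hlen (lt_irrefl _)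
  · refine ⟨i, v', ?_⟩
    rw [← hv]
    simp

theorem beyond_up (hd : 3 ≤ d) {g : Lab d → E d} (hg : RidgeProp n g) {j : Fin (d + 1)}
    {w u : Word d} (hw : Red (j :: w)) (hu : Red u) (hn : u.length ≤ n)
    (hlen : (j :: w).length < u.length) (hs : ¬ (j :: w) <:+ u) :
    Beyond (fun k => g (T (j :: w) k)) (g (Sum.inr u)) j := by
  induction w generalizing j with
  | nil =>
    obtain ⟨i, hi⟩ := exists_cons_suffix_real (List.nil_suffix (l := u))
      (by simp only [List.length_cons, List.length_nil] at hlen ⊢; omega)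
    have hij : i ≠ j := by
      rintro rfl
      exact hs hi
    exact beyond_up_of hd hg hw hu hn hlen hij (beyond_down hd hg hi hu hn)
  | cons j' w' ih =>
    have hlen' : (j' :: w').length < u.length := by
      simp only [List.length_cons] at hlen ⊢
      omega
    by_cases hs' : (j' :: w') <:+ u
    · obtain ⟨i, hi⟩ := exists_cons_suffix_real hs' hlen'
      have hij : i ≠ j := by
        rintro rfl
        exact hs hi
      exact beyond_up_of hd hg hw hu hn hlen hij (beyond_down hd hg hi hu hn)
    · have hw' : Red (j' :: w') := List.IsChain.suffix hw (List.suffix_cons j _)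
      have hne : j' ≠ j := by
        have h := hw
        unfold Red at h
        rw [List.isChain_cons_cons] at h
        exact h.1.symm
      exact beyond_up_of hd hg hw hu hn hlen hne (ih hw' hlen' hs')

theorem ridge_ineq {g : Lab d → E d} (hg : RidgeProp n g) {w : Word d}
    (hw : Red w) (hn : w.length ≤ n) {y y' : Lab d} (hy : IsLab n y) (hy' : IsLab n y')
    (hyw : ∀ k, T w k ≠ y) (hyw' : ∀ k, T w k ≠ y') {i j : Fin (d + 1)} (hij : i ≠ j)
    {lam lam' : Fin (d + 1) → ℝ} (h1 : ∑ k, lam k = 1) (h2 : ∑ k, lam k • g (T w k) = g y)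
    (h3 : lam i < 0) (h4 : ∀ k, k ≠ i → 0 < lam k)
    (h1' : ∑ k, lam' k = 1) (h2' : ∑ k, lam' k • g (T w k) = g y')
    (h3' : lam' j < 0) (h4' : ∀ k, k ≠ j → 0 < lam' k) :
    lam i * lam' j < lam j * lam' i := by
  obtain ⟨l, M, hl, hxi, hxj, hlt⟩ := ridge_functional_real hg hw hn hij
  have h := ridge_eval (x := fun k => g (T w k)) h1 h2 l M hij hl
  have h' := ridge_eval (x := fun k => g (T w k)) h1' h2' l M hij hl
  have hyM : l (g y) < M := hlt y hy fun k _ _ => hyw k
  have hyM' : l (g y') < M := hlt y' hy' fun k _ _ => hyw' k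
  simp only [one_mul] at h h'
  have hj := h4 j hij.symm
  have hi := h4' i hij
  set A := M - l (g (T w i)) with hA
  set B := M - l (g (T w j)) with hB
  have hA0 : 0 < A := by linarith
  have hB0 : 0 < B := by linarith
  have e1 : -lam i * A < lam j * B := by
    have : lam i * A + lam j * B = M - l (g y) := by
      rw [hA, hB]
      linarith
    linarith
  have e2 : -lam' j * B < lam' i * A := by
    have : lam' i * A + lam' j * B = M - l (g y') := by
      rw [hA, hB]
      linarith
    linarith
  have e3 : (-lam i * A) * (-lam' j * B) < (lam j * B) * (lam' i * A) :=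
    mul_lt_mul'' e1 e2 (by nlinarith) (by nlinarith)
  have e4 : (lam i * lam' j) * (A * B) < (lam j * lam' i) * (A * B) := by
    calc (lam i * lam' j) * (A * B) = (-lam i * A) * (-lam' j * B) := by ring
      _ < (lam j * B) * (lam' i * A) := e3
      _ = (lam j * lam' i) * (A * B) := by ring
  exact lt_of_mul_lt_mul_right e4 (by positivity)

end Pool.Agent.Work.MP_1f68be_co
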