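import Pool.Agent.Work.MP_1f68be_co.Defs

/-!
# MP_1f68be_co: sign patterns of the explicit configuration
-/

namespace Pool.Agent.Work.MP_1f68be_co

variable {d n : ℕ}

theorem refl_refl (i : Fin (d + 1)) (v : Fin (d + 1) → ℝ) : refl i (refl i v) = v := by
  funext j
  unfold refl
  by_cases h : j = i
  · simp [h]
  · simp [h]

theorem refl_add (i : Fin (d + 1)) (v v' : Fin (d + 1) → ℝ) :
    refl i (v + v') = refl i v + refl i v' := by
  funext j
  by_cases h : j = i
  · simp only [refl, h, if_true, Pi.add_apply]; ring
  · simp only [refl, h, if_false, Pi.add_apply]; ring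

theorem refl_smul (i : Fin (d + 1)) (a : ℝ) (v : Fin (d + 1) → ℝ) :
    refl i (a • v) = a • refl i v := by
  funext j
  by_cases h : j = i
  · simp only [refl, h, if_true, Pi.smul_apply, smul_eq_mul]; ring
  · simp only [refl, h, if_false, Pi.smul_apply, smul_eq_mul]; ring

theorem vec_T (w : Word d) (k : Fin (d + 1)) : vec (T w k) = X w k := by
  induction w with
  | nil => rfl
  | cons i w ih =>
    by_cases h : k = i
    · subst h
      have : T (k :: w) k = Sum.inr (k :: w) := by simp [T]
      rw [this]
      rfl
    · have h1 : T (i :: w) k = T w k := by simp [T, h]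
      have h2 : X (i :: w) k = X w k := by simp [X, h]
      rw [h1, h2, ih]

theorem C_add (w : Word d) (v v' : Fin (d + 1) → ℝ) : C w (v + v') = C w v + C w v' := by
  induction w with
  | nil => rfl
  | cons i w ih =>
    change refl i (C w (v + v')) = refl i (C w v) + refl i (C w v')
    rw [ih, refl_add]

theorem C_smul (w : Word d) (a : ℝ) (v : Fin (d + 1) → ℝ) : C w (a • v) = a • C w v := by
  induction w with
  | nil => rfl
  | cons i w ih =>
    change refl i (C w (a • v)) = a • refl i (C w v)
    rw [ih, refl_smul]

theorem C_zero (w : Word d) : C w 0 = 0 := by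
  have := C_smul w 0 (0 : Fin (d + 1) → ℝ)
  simpa using this

theorem C_neg (w : Word d) (v : Fin (d + 1) → ℝ) : C w (-v) = -C w v := by
  have := C_smul w (-1) v
  simpa using this

theorem C_sum {ι : Type*} (w : Word d) (s : Finset ι) (f : ι → Fin (d + 1) → ℝ) :
    C w (∑ j ∈ s, f j) = ∑ j ∈ s, C w (f j) := by
  classical
  induction s using Finset.induction_on with
  | empty => simp [C_zero]
  | insert a s ha ih => rw [Finset.sum_insert ha, Finset.sum_insert ha, C_add, ih]

theorem C_X (w : Word d) (k : Fin (d + 1)) : C w (X w k) = Pi.single k 1 := by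
  induction w generalizing k with
  | nil => rfl
  | cons i w ih =>
    change refl i (C w (X (i :: w) k)) = _
    by_cases h : k = i
    · subst h
      have h2 : X (k :: w) k = -X w k + (3 : ℝ) • ∑ j ∈ Finset.univ.erase k, X w j := by
        simp [X]
      rw [h2, C_add, C_neg, C_smul, C_sum, ih]
      have h3 : ∑ j ∈ Finset.univ.erase k, C w (X w j)
          = ∑ j ∈ Finset.univ.erase k, (Pi.single j 1 : Fin (d + 1) → ℝ) :=
        Finset.sum_congr rfl fun j _ => ih j
      rw [h3]
      have h4 : ∀ m : Fin (d + 1),
          (∑ j ∈ Finset.univ.erase k, (Pi.single j 1 : Fin (d + 1) → ℝ)) m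
            = if m = k then 0 else 1 := by
        intro m
        rw [Finset.sum_apply]
        by_cases hm : m = k
        · subst hm
          rw [if_pos rfl]
          refine Finset.sum_eq_zero fun j hj => ?_
          have : m ≠ j := fun h => (Finset.ne_of_mem_erase hj) h.symm
          simp [Pi.single_apply, this]
        · rw [if_neg hm, Finset.sum_eq_single m]
          · simp
          · intro b _ hb
            simp [Pi.single_apply, hb.symm]
          · intro hb
            exact absurd (Finset.mem_erase.2 ⟨hm, Finset.mem_univ _⟩) hb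
      funext m
      unfold refl
      by_cases hm : m = k
      · subst hm
        simp [h4]
      · simp [h4, hm]
    · have h2 : X (i :: w) k = X w k := by simp [X, h]
      rw [h2, ih]
      funext m
      have h3 : (Pi.single k 1 : Fin (d + 1) → ℝ) i = 0 := by
        simp [Pi.single_apply, Ne.symm h]
      unfold refl
      by_cases hm : m = i
      · subst hm
        simp [h3]
      · simp [h3, hm]

theorem C_injective (w : Word d) : Function.Injective (C w) := by
  induction w with
  | nil => exact fun _ _ h => h
  | cons i w ih =>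
    intro v v' h
    apply ih
    have h' : refl i (C w v) = refl i (C w v') := h
    have := congrArg (refl i) h'
    rwa [refl_refl, refl_refl] at this

theorem C_eq_refl (i : Fin (d + 1)) (w : Word d) (v : Fin (d + 1) → ℝ) :
    C w v = refl i (C (i :: w) v) := by
  change C w v = refl i (refl i (C w v))
  rw [refl_refl]

/-- The step lemma. -/
theorem negAt_refl {v : Fin (d + 1) → ℝ} {i j : Fin (d + 1)} (h : NegAt v i) (hj : j ≠ i) :
    NegAt (refl j v) j := by
  obtain ⟨h1, h2⟩ := h
  have hvj := h2 j hj
  constructor
  · simp only [refl, if_true]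
    linarith
  · intro k hk
    simp only [refl, if_true, hk, if_false]
    by_cases hki : k = i
    · subst hki
      linarith
    · have := h2 k hki
      linarith

theorem negAt_refl_single (j : Fin (d + 1)) :
    NegAt (refl j (Pi.single j 1 : Fin (d + 1) → ℝ)) j := by
  constructor
  · simp [refl]
  · intro k hk
    simp [refl, hk]
    norm_num

theorem negAt_down_aux (m : ℕ) : ∀ (p w : Word d) (i : Fin (d + 1)), p.length = m →
    Red (p ++ i :: w) → NegAt (C w (vec (Sum.inr (p ++ i :: w)))) i := by
  induction m with
  | zero =>
    intro p w i hp _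
    have hp' : p = [] := List.length_eq_zero_iff.1 hp
    subst hp'
    rw [C_eq_refl i]
    have : vec (Sum.inr ([] ++ i :: w)) = X (i :: w) i := rfl
    rw [this, C_X]
    exact negAt_refl_single i
  | succ m ih =>
    intro p w i hp hr
    rcases List.eq_nil_or_concat p with h | ⟨p', j, h⟩
    · subst h
      simp at hp
    · subst h
      have hlen : p'.length = m := by
        simpa using hp
      have he : p'.concat j ++ i :: w = p' ++ j :: (i :: w) := by
        rw [List.concat_eq_append, List.append_assoc]
        rfl
      rw [he] at hr ⊢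
      have h1 := ih p' (i :: w) j hlen hr
      have hji : j ≠ i := by
        have h2 : Red (j :: i :: w) := by
          unfold Red at hr ⊢
          exact (List.isChain_append.1 hr).2.1
        unfold Red at h2
        exact (List.isChain_cons_cons.1 h2).1
      rw [C_eq_refl i]
      exact negAt_refl h1 (Ne.symm hji)

theorem negAt_down {i : Fin (d + 1)} {w u : Word d} (hs : (i :: w) <:+ u) (hu : Red u) :
    NegAt (C w (vec (Sum.inr u))) i := by
  obtain ⟨p, rfl⟩ := hs
  exact negAt_down_aux p.length p w i rfl hu

theorem exists_cons_suffix {w u : Word d} (h : w <:+ u) (hne : w ≠ u) :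
    ∃ i, (i :: w) <:+ u := by
  obtain ⟨p, rfl⟩ := h
  rcases List.eq_nil_or_concat p with h | ⟨p', j, h⟩
  · subst h
    exact absurd rfl hne
  · subst h
    refine ⟨j, p', ?_⟩
    rw [List.concat_eq_append, List.append_assoc]
    rfl

theorem T_head (j : Fin (d + 1)) (w : Word d) : T (j :: w) j = Sum.inr (j :: w) := by
  simp [T]

theorem T_of_ne {j k : Fin (d + 1)} (w : Word d) (h : k ≠ j) : T (j :: w) k = T w k := by
  simp [T, h]

/-- The sharper form of `negAt_exists`. -/
theorem negAt_up {y : Lab d} (hy : IsLab n y) : ∀ (w : Word d) (j : Fin (d + 1)),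
    Red (j :: w) → (∀ k, T (j :: w) k ≠ y) → (∀ u, y = Sum.inr u → ¬ (j :: w) <:+ u) →
    NegAt (C (j :: w) (vec y)) j := by
  intro w
  induction w with
  | nil =>
    intro j hr hT hs
    by_cases hex : ∃ k, T ([] : Word d) k = y
    · obtain ⟨k, hk⟩ := hex
      have hkj : k = j := by
        by_contra hne
        exact hT k (by rw [T_of_ne _ hne]; exact hk)
      subst hkj
      rw [← hk, vec_T]
      change NegAt (refl k (C [] (X [] k))) k
      rw [C_X]
      exact negAt_refl_single k
    · cases y with
      | inl k => exact absurd ⟨k, rfl⟩ hex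
      | inr u =>
        obtain ⟨hu0, hur, hul⟩ := hy
        obtain ⟨i, hi⟩ := exists_cons_suffix (List.nil_suffix (l := u)) (Ne.symm hu0)
        have hij : j ≠ i := by
          rintro rfl
          exact hs u rfl hi
        have := negAt_down hi hur
        exact negAt_refl this hij
  | cons j' w ih =>
    intro j hr hT hs
    have hjj : j ≠ j' := by
      unfold Red at hr
      exact (List.isChain_cons_cons.1 hr).1
    have hr' : Red (j' :: w) := by
      unfold Red at hr ⊢
      exact (List.isChain_cons_cons.1 hr).2
    by_cases hex : ∃ k, T (j' :: w) k = y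
    · obtain ⟨k, hk⟩ := hex
      have hkj : k = j := by
        by_contra hne
        exact hT k (by rw [T_of_ne _ hne]; exact hk)
      subst hkj
      rw [← hk, vec_T]
      change NegAt (refl k (C (j' :: w) (X (j' :: w) k))) k
      rw [C_X]
      exact negAt_refl_single k
    · push Not at hex
      by_cases hsu : ∃ u, y = Sum.inr u ∧ (j' :: w) <:+ u
      · obtain ⟨u, hyu, hsuf⟩ := hsu
        subst hyu
        obtain ⟨hu0, hur, hul⟩ := hy
        have hne : (j' :: w) ≠ u := by
          intro h
          exact hex j' (by rw [T_head, h])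
        obtain ⟨i, hi⟩ := exists_cons_suffix hsuf hne
        have hij : j ≠ i := by
          rintro rfl
          exact hs u rfl hi
        have := negAt_down hi hur
        exact negAt_refl this hij
      · push Not at hsu
        have := ih j' hr' hex hsu
        exact negAt_refl this hjj

theorem negAt_exists {w : Word d} (hw : Red w) {y : Lab d} (hy : IsLab n y)
    (hyw : ∀ k, T w k ≠ y) : ∃ i, NegAt (C w (vec y)) i := by
  by_cases hsu : ∃ u, y = Sum.inr u ∧ w <:+ u
  · obtain ⟨u, hyu, hsuf⟩ := hsu
    subst hyu
    obtain ⟨hu0, hur, hul⟩ := hy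
    have hne : w ≠ u := by
      intro h
      subst h
      cases w with
      | nil => exact hu0 rfl
      | cons j w => exact hyw j (T_head j w)
    obtain ⟨i, hi⟩ := exists_cons_suffix hsuf hne
    exact ⟨i, negAt_down hi hur⟩
  · push Not at hsu
    cases w with
    | nil =>
      cases y with
      | inl k => exact absurd rfl (hyw k)
      | inr u => exact absurd List.nil_suffix (hsu u rfl)
    | cons j w => exact ⟨j, negAt_up hy w j hw hyw hsu⟩

theorem sum_vec_pos (hd : 2 ≤ d) {y : Lab d} (hy : IsLab n y) : 0 < ∑ k, vec y k := by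
  by_cases hex : ∃ k, T ([] : Word d) k = y
  · obtain ⟨k, rfl⟩ := hex
    rw [vec_T]
    simp [X]
  · push Not at hex
    obtain ⟨i, h1, h2⟩ := negAt_exists (w := []) (by simp [Red]) hy hex
    change vec y i < 0 at h1
    change ∀ k, k ≠ i → -2 * vec y i ≤ vec y k at h2
    rw [← Finset.add_sum_erase _ _ (Finset.mem_univ i)]
    have h3 : ∑ k ∈ Finset.univ.erase i, (-2 * vec y i) ≤ ∑ k ∈ Finset.univ.erase i, vec y k :=
      Finset.sum_le_sum fun k hk => h2 k (Finset.ne_of_mem_erase hk)
    rw [Finset.sum_const, Finset.card_erase_of_mem (Finset.mem_univ i), Finset.card_univ,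
      Fintype.card_fin, Nat.add_sub_cancel, nsmul_eq_mul] at h3
    have h4 : (2 : ℝ) ≤ d := by exact_mod_cast hd
    nlinarith

end Pool.Agent.Work.MP_1f68be_co
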